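import Pool.Agent.Lib.MP_b7d179_gt.L.Std
import Pool.Agent.Lib.MP_b7d179_gt.U.Ball1

/-! From a homeomorphism of standard balls to an ambient isotopy. -/

namespace Pool.Agent.Lib.MP_b7d179_gt.F

open Set Stmt L

theorem s3_compact : CompactSpace S3 := by
  refine (isCompact_iff_compactSpace (s := {p : ℂ × ℂ | ‖p.1‖ ^ 2 + ‖p.2‖ ^ 2 = 1})).1 ?_
  refine (isCompact_closedBall (0 : ℂ × ℂ) 1).of_isClosed_subset
    (isClosed_eq (by fun_prop) continuous_const) fun p hp => ?_
  have hp : ‖p.1‖ ^ 2 + ‖p.2‖ ^ 2 = 1 := hp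
  rw [mem_closedBall_zero_iff, Prod.norm_def, max_le_iff]
  constructor <;> nlinarith [norm_nonneg p.1, norm_nonneg p.2]

/-- the inverses of a continuous family of homeomorphisms of a compact space are continuous -/
theorem inv_cont {X : Type*} [TopologicalSpace X] [CompactSpace X] [T2Space X]
    {H : unitInterval → X ≃ₜ X} (h : Continuous fun p : unitInterval × X => H p.1 p.2) :
    Continuous fun p : unitInterval × X => (H p.1).symm p.2 := by
  let e : unitInterval × X ≃ unitInterval × X :=
    ⟨fun p => (p.1, H p.1 p.2), fun p => (p.1, (H p.1).symm p.2), fun p => by simp,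
      fun p => by simp⟩
  have c : Continuous e := continuous_fst.prodMk h
  exact continuous_snd.comp (c.homeoOfEquivCompactToT2 (f := e)).symm.continuous

/-- the complement of a standard ball -/
theorem std_other {B S : Set S3} (h : Std B S) :
    ∃ N, IsClosed N ∧ IsClosed B ∧ B ∪ N = univ ∧ B ∩ N = S := by
  obtain ⟨H, -, -, rfl, rfl⟩ := h
  have c : Continuous fun p : S3 => p.1.2.im := by fun_prop
  refine ⟨H 1 '' {p | 0 ≤ p.1.2.im}, (H 1).isClosedMap _ (isClosed_le continuous_const c),
    (H 1).isClosedMap _ (isClosed_le c continuous_const), ?_, ?_⟩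
  · rw [← image_union, ← (H 1).surjective.range_eq, ← image_univ]
    congr 1
    exact eq_univ_of_forall fun p => le_total p.1.2.im 0
  · rw [← image_inter (H 1).injective]
    congr 1
    exact Set.ext fun p => ⟨fun h => le_antisymm h.1 h.2, fun h => ⟨le_of_eq h, ge_of_eq h⟩⟩

theorem alex_S3 {B S : Set S3} (h : Std B S) (hB : Ball B S) {k : S3 → S3} (hk : Emb k B)
    (hi : k '' B = B) (hr : EqOn k id S) :
    ∃ A : unitInterval → S3 ≃ₜ S3, Continuous (fun p : unitInterval × S3 => A p.1 p.2) ∧
      (∀ x, A 0 x = x) ∧ EqOn (A 1) k B := by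
  classical
  have := s3_compact
  obtain ⟨N, cN, cB, hu, hi'⟩ := std_other h
  obtain ⟨H, hc, hb, h0, h1⟩ := alexander hB hk hi hr
  let a : unitInterval × S3 → S3 := fun p => if p.2 ∈ B then H p.1 p.2 else p.2
  have aB : ∀ t x, x ∈ B → a (t, x) = H t x := fun t x hx => if_pos hx
  have aN : ∀ t x, x ∈ N → a (t, x) = x := fun t x hx => by
    by_cases hxB : x ∈ B
    · rw [aB t x hxB]; exact (hb t t.2).2 (hi'.le ⟨hxB, hx⟩)
    · exact if_neg hxB
  have ca : Continuous a := by
    have c1 : ContinuousOn a (univ ×ˢ B) := by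
      refine ContinuousOn.congr (f := fun p : unitInterval × S3 => H p.1 p.2) ?_
        fun p hp => aB p.1 p.2 hp.2
      exact hc.comp (f := fun p : unitInterval × S3 => ((p.1 : ℝ), p.2)) (by fun_prop)
        fun p hp => ⟨p.1.2, hp.2⟩
    have c2 : ContinuousOn a (univ ×ˢ N) :=
      continuousOn_snd.congr fun p hp => aN p.1 p.2 hp.2
    have := c1.union_of_isClosed c2 (isClosed_univ.prod cB) (isClosed_univ.prod cN)
    rwa [← prod_union, hu, univ_prod_univ, continuousOn_univ] at this
  have bij : ∀ t : unitInterval, Function.Bijective fun x => a (t, x) := fun t => by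
    have b := (hb t t.2).1
    constructor
    · intro x y e
      by_cases hx : x ∈ B <;> by_cases hy : y ∈ B <;> simp only [a, hx, hy, if_true, if_false] at e
      · exact b.injOn hx hy e
      · exact absurd (e ▸ b.mapsTo hx) hy
      · exact absurd (e ▸ b.mapsTo hy) hx
      · exact e
    · intro y
      by_cases hy : y ∈ B
      · obtain ⟨x, hx, e⟩ := b.surjOn hy
        exact ⟨x, (aB t x hx).trans e⟩
      · exact ⟨y, if_neg hy⟩
  refine ⟨fun t => Continuous.homeoOfEquivCompactToT2 (f := Equiv.ofBijective _ (bij t))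
    (ca.comp (continuous_const.prodMk continuous_id)), ca, fun x => ?_, fun x hx => ?_⟩
  · change a (0, x) = x
    by_cases hx : x ∈ B
    · exact (aB 0 x hx).trans (h0 hx)
    · exact if_neg hx
  · exact (aB 1 x hx).trans (h1 hx)

theorem amb_of_match {B S B' S' K K' : Set S3} (h : Std B S) (h' : Std B' S') (hB : Ball B S)
    (hK : K ⊆ B) (hm : ∀ φ : S3 → S3, Emb φ S → φ '' S = S' →
      ∃ H : S3 → S3, Emb H B ∧ H '' B = B' ∧ EqOn H φ S ∧ H '' K = K') : AmbIso K K' := by
  have := s3_compact
  obtain ⟨J, cJ, J0, JB, JS⟩ := id h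
  obtain ⟨J', cJ', J0', JB', JS'⟩ := id h'
  let e : S3 ≃ₜ S3 := (J 1).symm.trans (J' 1)
  have eB : e '' B = B' := by
    rw [← JB, ← JB', image_image]; exact image_congr fun x _ => by simp [e]
  have eS : e '' S = S' := by
    rw [← JS, ← JS', image_image]; exact image_congr fun x _ => by simp [e]
  obtain ⟨H, hH, HB, HS, HK⟩ := hm e ⟨e.continuous.continuousOn, e.injective.injOn⟩ eS
  obtain ⟨A, cA, A0, A1⟩ := alex_S3 h hB (k := e.symm ∘ H)
    (Emb.comp (B := univ) ⟨e.symm.continuous.continuousOn, e.symm.injective.injOn⟩ hH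
      (subset_univ _))
    (by rw [image_comp, HB, ← eB, image_image]; simp)
    (fun x hx => by simp [HS hx])
  refine ⟨fun t => (A t).trans ((J t).symm.trans (J' t)), ?_, fun x => ?_, ?_⟩
  · exact cJ'.comp (continuous_fst.prodMk ((inv_cont cJ).comp (continuous_fst.prodMk cA)))
  · have : (J 0).symm x = x := by rw [Homeomorph.symm_apply_eq, J0]
    simp [A0, this, J0']
  · rw [← HK]
    refine image_congr fun x hx => ?_
    change e (A 1 x) = H x
    rw [A1 (hK hx)]; simp

end Pool.Agent.Lib.MP_b7d179_gt.F
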