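import Pool.Agent.Lib.MP_b7d179_gt.F.Amb

/-! Round caps of the sphere are standard balls. -/

namespace Pool.Agent.Lib.MP_b7d179_gt.F

open Set Stmt L

theorem std_base : Std {p | p.1.2.im ≤ 0} {p | p.1.2.im = 0} :=
  ⟨fun _ => Homeomorph.refl _, continuous_snd, fun _ => rfl, by simp, by simp⟩

theorem Std.map {B S : Set S3} (h : Std B S) {J : unitInterval → S3 ≃ₜ S3}
    (c : Continuous fun p : unitInterval × S3 => J p.1 p.2) (h0 : ∀ x, J 0 x = x) :
    Std (J 1 '' B) (J 1 '' S) := by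
  obtain ⟨H, cH, H0, rfl, rfl⟩ := h
  exact ⟨fun t => (H t).trans (J t), c.comp (continuous_fst.prodMk cH), fun x => by simp [H0, h0],
    by rw [image_image]; rfl, by rw [image_image]; rfl⟩

theorem iso_of_bij {a : unitInterval × S3 → S3} (c : Continuous a)
    (b : ∀ t, Function.Bijective fun x => a (t, x)) :
    ∃ J : unitInterval → S3 ≃ₜ S3, ∀ t x, J t x = a (t, x) := by
  have := s3_compact
  exact ⟨fun t => Continuous.homeoOfEquivCompactToT2 (f := Equiv.ofBijective _ (b t))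
    (c.comp (continuous_const.prodMk continuous_id)), fun _ _ => rfl⟩

theorem s3_eq (p : S3) : p.1.1.re ^ 2 + p.1.1.im ^ 2 + p.1.2.re ^ 2 + p.1.2.im ^ 2 = 1 := by
  have := p.2
  rw [Complex.sq_norm, Complex.sq_norm, Complex.normSq_apply, Complex.normSq_apply] at this
  linarith

theorem s3_of {p : ℂ × ℂ} (h : p.1.re ^ 2 + p.1.im ^ 2 + p.2.re ^ 2 + p.2.im ^ 2 = 1) :
    ‖p.1‖ ^ 2 + ‖p.2‖ ^ 2 = 1 := by
  rw [Complex.sq_norm, Complex.sq_norm, Complex.normSq_apply, Complex.normSq_apply]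
  linarith

theorem s3_ext {p q : S3} (h1 : p.1.1.re = q.1.1.re) (h2 : p.1.1.im = q.1.1.im)
    (h3 : p.1.2.re = q.1.2.re) (h4 : p.1.2.im = q.1.2.im) : p = q :=
  Subtype.ext (Prod.ext (Complex.ext h1 h2) (Complex.ext h3 h4))

theorem ip_eq (p q : S3) : ip p q =
    p.1.1.re * q.1.1.re + p.1.1.im * q.1.1.im + p.1.2.re * q.1.2.re + p.1.2.im * q.1.2.im := by
  simp [ip]; ring

/-- the special unitary map with first column `a` -/
noncomputable def rot (a p : S3) : S3 :=
  ⟨(a.1.1 * p.1.1 - starRingEnd ℂ a.1.2 * p.1.2, a.1.2 * p.1.1 + starRingEnd ℂ a.1.1 * p.1.2), s3_of (by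
    have h := s3_eq a
    have h' := s3_eq p
    simp
    linear_combination (p.1.1.re ^ 2 + p.1.1.im ^ 2 + p.1.2.re ^ 2 + p.1.2.im ^ 2) * h + h')⟩

theorem rot_ip (a p q : S3) : ip (rot a p) (rot a q) = ip p q := by
  have h := s3_eq a
  simp only [ip_eq, rot]
  simp
  linear_combination (p.1.1.re * q.1.1.re + p.1.1.im * q.1.1.im + p.1.2.re * q.1.2.re +
    p.1.2.im * q.1.2.im) * h

theorem rot_bij (a : S3) : Function.Bijective (rot a) := by
  have h := s3_eq a
  let b : S3 := ⟨(starRingEnd ℂ a.1.1, -a.1.2), s3_of (by simp; linarith)⟩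
  refine Function.bijective_iff_has_inverse.2 ⟨rot b, fun p => ?_, fun p => ?_⟩ <;>
    apply s3_ext <;> simp [rot, b]
  · linear_combination p.1.1.re * h
  · linear_combination p.1.1.im * h
  · linear_combination p.1.2.re * h
  · linear_combination p.1.2.im * h
  · linear_combination p.1.1.re * h
  · linear_combination p.1.1.im * h
  · linear_combination p.1.2.re * h
  · linear_combination p.1.2.im * h

theorem rot_cont : Continuous fun p : S3 × S3 => rot p.1 p.2 := by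
  refine Continuous.subtype_mk ?_ _
  fun_prop

/-- a path from `(1, 0)` to any point -/
theorem s3_path (a : S3) : ∃ γ : unitInterval → S3, Continuous γ ∧ (γ 0).1 = (1, 0) ∧ γ 1 = a := by
  have h := a.2
  have h1 : ‖a.1.1‖ ≤ 1 := by nlinarith [norm_nonneg a.1.1, norm_nonneg a.1.2]
  refine ⟨fun t => ⟨((Real.cos (t * Real.arccos ‖a.1.1‖) : ℂ) *
      Complex.exp (((t : ℝ) * Complex.arg a.1.1 : ℝ) * Complex.I),
    (Real.sin (t * Real.arccos ‖a.1.1‖) : ℂ) *
      Complex.exp (((t : ℝ) * Complex.arg a.1.2 : ℝ) * Complex.I)), ?_⟩, ?_, by simp, ?_⟩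
  · simp only [norm_mul, Complex.norm_exp_ofReal_mul_I, mul_one, Complex.norm_real,
      Real.norm_eq_abs, sq_abs]
    exact Real.cos_sq_add_sin_sq _
  · refine Continuous.subtype_mk ?_ _
    fun_prop
  · refine Subtype.ext (Prod.ext ?_ ?_)
    · simp only [Set.Icc.coe_one, one_mul]
      rw [Real.cos_arccos (by linarith [norm_nonneg a.1.1]) h1]
      exact Complex.norm_mul_exp_arg_mul_I _
    · simp only [Set.Icc.coe_one, one_mul]
      rw [Real.sin_arccos, show 1 - ‖a.1.1‖ ^ 2 = ‖a.1.2‖ ^ 2 by linarith,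
        Real.sqrt_sq (norm_nonneg _)]
      exact Complex.norm_mul_exp_arg_mul_I _

/-- the pole -/
def pole : S3 := ⟨(0, Complex.I), by simp⟩

theorem cap_pos (p : S3) {s : ℝ} (hs : |s| < 1) : 0 < 1 - 2 * s * p.1.2.im + s ^ 2 := by
  have h := s3_eq p
  have := abs_lt.1 hs
  by_contra hn
  have e : 1 - 2 * s * p.1.2.im + s ^ 2 =
      p.1.1.re ^ 2 + p.1.1.im ^ 2 + p.1.2.re ^ 2 + (p.1.2.im - s) ^ 2 := by linarith
  have z : p.1.1.re ^ 2 + p.1.1.im ^ 2 + p.1.2.re ^ 2 = 0 := by nlinarith [sq_nonneg (p.1.2.im - s)]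
  have z' : (p.1.2.im - s) ^ 2 = 0 := by
    nlinarith [sq_nonneg (p.1.2.im - s), sq_nonneg p.1.1.re, sq_nonneg p.1.1.im, sq_nonneg p.1.2.re]
  have : p.1.2.im = s := by simpa [sub_eq_zero] using z'
  nlinarith

/-- the direction from the inner point `s * pole` -/
noncomputable def dir (s : ℝ) (hs : |s| < 1) (p : S3) : S3 :=
  ⟨(p.1.1 / (Real.sqrt (1 - 2 * s * p.1.2.im + s ^ 2) : ℝ),
    (p.1.2 - s * Complex.I) / (Real.sqrt (1 - 2 * s * p.1.2.im + s ^ 2) : ℝ)), s3_of (by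
    have h := s3_eq p
    have hp := cap_pos p hs
    simp only [Complex.div_ofReal_re, Complex.div_ofReal_im, div_pow, Real.sq_sqrt hp.le]
    simp
    field_simp
    linarith)⟩

theorem dir_bij {s : ℝ} (hs : |s| < 1) : Function.Bijective (dir s hs) := by
  have hs' := abs_lt.1 hs
  have h1 : 0 < 1 - s ^ 2 := by nlinarith
  constructor
  · intro p q e
    have hp := cap_pos p hs
    have hq := cap_pos q hs
    obtain ⟨u, hu, hu2, eu⟩ : ∃ u, 0 < u ∧ u ^ 2 = 1 - 2 * s * p.1.2.im + s ^ 2 ∧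
      Real.sqrt (1 - 2 * s * p.1.2.im + s ^ 2) = u := ⟨_, Real.sqrt_pos.2 hp, Real.sq_sqrt hp.le, rfl⟩
    obtain ⟨v, hv, hv2, ev⟩ : ∃ v, 0 < v ∧ v ^ 2 = 1 - 2 * s * q.1.2.im + s ^ 2 ∧
      Real.sqrt (1 - 2 * s * q.1.2.im + s ^ 2) = v := ⟨_, Real.sqrt_pos.2 hq, Real.sq_sqrt hq.le, rfl⟩
    have e1 := congrArg (fun z : S3 => z.1.1.re) e
    have e2 := congrArg (fun z : S3 => z.1.1.im) e
    have e3 := congrArg (fun z : S3 => z.1.2.re) e
    have e4 := congrArg (fun z : S3 => z.1.2.im) e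
    simp only [dir, eu, ev, Complex.div_ofReal_re, Complex.div_ofReal_im] at e1 e2 e3 e4
    simp at e3 e4
    field_simp at e1 e2 e3 e4
    have key : (u - v) * (u * v + (1 - s ^ 2)) = 0 := by
      linear_combination v * hu2 - u * hv2 - 2 * s * e4
    have huv : u = v := by
      rcases mul_eq_zero.1 key with h | h
      · linarith
      · nlinarith [mul_pos hu hv]
    subst huv
    apply s3_ext <;> apply mul_left_cancel₀ hu.ne' <;> linarith
  · intro q
    have h := s3_eq q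
    obtain ⟨w, hw, hw2⟩ : ∃ w, 0 < w ∧ w ^ 2 = 1 - s ^ 2 + s ^ 2 * q.1.2.im ^ 2 :=
      ⟨_, Real.sqrt_pos.2 (by positivity), Real.sq_sqrt (by positivity)⟩
    obtain ⟨l, hl⟩ : ∃ l, l = w - s * q.1.2.im := ⟨_, rfl⟩
    have lpos : 0 < l := by
      by_contra hn
      nlinarith [mul_nonneg (sub_nonneg.2 (show w ≤ s * q.1.2.im by linarith))
        (show 0 ≤ s * q.1.2.im + w by linarith)]
    have l2 : l ^ 2 + 2 * s * q.1.2.im * l + s ^ 2 = 1 := by rw [hl]; linear_combination hw2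
    refine ⟨⟨(l * q.1.1, l * q.1.2 + s * Complex.I), s3_of (by
      simp; linear_combination l ^ 2 * h + l2)⟩, ?_⟩
    have r : Real.sqrt (1 - 2 * s * (l * q.1.2.im + s) + s ^ 2) = l := by
      rw [show 1 - 2 * s * (l * q.1.2.im + s) + s ^ 2 = l ^ 2 by linear_combination -l2,
        Real.sqrt_sq lpos.le]
    apply s3_ext <;> simp only [dir, Complex.div_ofReal_re, Complex.div_ofReal_im] <;> simp <;>
      rw [r] <;> field_simp

theorem std_cap0 {c : ℝ} (hc : |c| < 1) : Std {p | p.1.2.im ≤ c} {p | p.1.2.im = c} := by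
  have := s3_compact
  have ht : ∀ t : unitInterval, |(t : ℝ) * c| < 1 := fun t => by
    rw [abs_mul, abs_of_nonneg t.2.1]
    nlinarith [t.2.1, t.2.2, abs_nonneg c]
  have cont : Continuous fun p : unitInterval × S3 => dir (p.1 * c) (ht p.1) p.2 := by
    refine Continuous.subtype_mk ?_ _
    have ne : ∀ p : unitInterval × S3, ((Real.sqrt (1 - 2 * (p.1 * c) * p.2.1.2.im +
        (p.1 * c) ^ 2) : ℝ) : ℂ) ≠ 0 := fun p =>
      Complex.ofReal_ne_zero.2 (Real.sqrt_pos.2 (cap_pos p.2 (ht p.1))).ne'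
    exact (Continuous.div (by fun_prop) (by fun_prop) ne).prodMk
      (Continuous.div (by fun_prop) (by fun_prop) ne)
  obtain ⟨J, hJ⟩ := iso_of_bij cont fun t => dir_bij (ht t)
  have cJ : Continuous fun p : unitInterval × S3 => J p.1 p.2 := by simpa only [hJ] using cont
  have J0 : ∀ x, (J 0).symm x = x := fun x => by
    rw [Homeomorph.symm_apply_eq, hJ]
    apply s3_ext <;> simp [dir]
  have im : ∀ x, ∃ u, 0 < u ∧ (J 1 x).1.2.im = (x.1.2.im - c) / u := fun x =>
    ⟨_, Real.sqrt_pos.2 (cap_pos x (ht 1)), by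
      rw [hJ]; simp only [dir, Complex.div_ofReal_im]; simp⟩
  have := Std.map std_base (J := fun t => (J t).symm) (inv_cont cJ) J0
  convert this using 1 <;> ext x <;> obtain ⟨u, hu, e⟩ := im x <;>
    simp only [Homeomorph.image_symm, mem_preimage, mem_setOf_eq, e]
  · rw [div_nonpos_iff]; constructor
    · exact fun h => Or.inr ⟨by linarith, hu.le⟩
    · rintro (h | h) <;> linarith [h.1, h.2]
  · rw [div_eq_zero_iff, sub_eq_zero]; exact ⟨Or.inl, fun h => h.resolve_right hu.ne'⟩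

theorem std_cap (x₀ : S3) {c : ℝ} (hc : |c| < 1) : Std {p | ip p x₀ ≤ c} {p | ip p x₀ = c} := by
  have h := s3_eq x₀
  let a : S3 := ⟨(starRingEnd ℂ (-Complex.I * x₀.1.2), starRingEnd ℂ (Complex.I * x₀.1.1)), s3_of (by simp; linarith)⟩
  have ha : rot a pole = x₀ := by apply s3_ext <;> simp [rot, a, pole]
  obtain ⟨γ, cγ, γ0, γ1⟩ := s3_path a
  have cont : Continuous fun p : unitInterval × S3 => rot (γ p.1) p.2 :=
    rot_cont.comp ((cγ.comp continuous_fst).prodMk continuous_snd)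
  obtain ⟨J, hJ⟩ := iso_of_bij cont fun t => rot_bij (γ t)
  have := Std.map (std_cap0 hc) (J := J) (by simpa only [hJ] using cont) fun x => by
    rw [hJ]; apply s3_ext <;> simp [rot, γ0]
  have e : ∀ x, ip (J 1 x) x₀ = x.1.2.im := fun x => by
    rw [hJ, ← ha]; simp only [γ1]; rw [rot_ip, ip_eq]; simp [pole]
  convert this using 1 <;> ext x <;> obtain ⟨y, rfl⟩ := (J 1).surjective x <;>
    simp only [mem_setOf_eq, e, (J 1).injective.mem_set_image]

end Pool.Agent.Lib.MP_b7d179_gt.F
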