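import Pool.Agent.Lib.MP_b7d179_gt.F.Uni

/-! Every isometry of the form acts on the sphere by a map isotopic to the identity. -/

namespace Pool.Agent.Lib.MP_b7d179_gt.F

open Set Stmt L Matrix

/-- `f` is the end of an ambient isotopy -/
def Iso0 (f : S3 → S3) : Prop :=
  ∃ J : unitInterval → S3 ≃ₜ S3, Continuous (fun p : unitInterval × S3 => J p.1 p.2) ∧
    (∀ x, J 0 x = x) ∧ ∀ x, J 1 x = f x

theorem Iso0.comp {f g : S3 → S3} (hf : Iso0 f) (hg : Iso0 g) : Iso0 (f ∘ g) := by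
  obtain ⟨J, c, h0, h1⟩ := hf
  obtain ⟨J', c', h0', h1'⟩ := hg
  exact ⟨fun t => (J' t).trans (J t), c.comp (continuous_fst.prodMk c'),
    fun x => by simp [h0, h0'], fun x => by simp [h1, h1']⟩

theorem iso0_of {a : unitInterval × S3 → S3} (c : Continuous a)
    (b : ∀ t, Function.Bijective fun x => a (t, x)) (h0 : ∀ x, a (0, x) = x) :
    Iso0 fun x => a (1, x) := by
  obtain ⟨J, hJ⟩ := iso_of_bij c b
  exact ⟨J, by simpa only [hJ] using c, fun x => (hJ 0 x).trans (h0 x), hJ 1⟩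

theorem Iso0.amb {f : S3 → S3} (hf : Iso0 f) {A B : Set S3} (h : AmbIso A B) :
    AmbIso (f '' A) B := by
  have := s3_compact
  obtain ⟨J, c, h0, h1⟩ := hf
  obtain ⟨H, c', h0', rfl⟩ := h
  refine ⟨fun t => (J t).symm.trans (H t), c'.comp (continuous_fst.prodMk (inv_cont c)),
    fun x => ?_, ?_⟩
  · have : (J 0).symm x = x := by rw [Homeomorph.symm_apply_eq, h0]
    simp [this, h0']
  · rw [image_image]
    exact image_congr fun x _ => by simp [← h1]

theorem iso0_rot (a : S3) : Iso0 (rot a) := by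
  obtain ⟨γ, cγ, γ0, γ1⟩ := s3_path a
  have := iso0_of (a := fun p => rot (γ p.1) p.2)
    (rot_cont.comp ((cγ.comp continuous_fst).prodMk continuous_snd)) (fun t => rot_bij (γ t))
    fun x => by apply s3_ext <;> simp [rot, γ0]
  simpa only [γ1] using this

/-- a phase in the second coordinate -/
noncomputable def ph (θ : ℝ) (p : S3) : S3 :=
  ⟨(p.1.1, Complex.exp (θ * Complex.I) * p.1.2), by
    rw [norm_mul, Complex.norm_exp_ofReal_mul_I, one_mul]; exact p.2⟩

theorem iso0_ph (θ : ℝ) : Iso0 (ph θ) := by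
  have k : ∀ s p, ph s (ph (-s) p) = p := fun s p => Subtype.ext (Prod.ext rfl (by
    simp only [ph]
    rw [← mul_assoc, ← Complex.exp_add]; simp))
  have := iso0_of (a := fun p => ph (p.1 * θ) p.2) (Continuous.subtype_mk (by fun_prop) _)
    (fun t => Function.bijective_iff_has_inverse.2 ⟨ph (-(t * θ)),
      fun p => by simpa using k (-(t * θ)) p, k _⟩)
    fun x => Subtype.ext (Prod.ext rfl (by simp [ph]))
  simpa using this

/-- the real boost -/
noncomputable def bM (r : ℝ) : M3 :=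
  !![(1 / Real.sqrt (1 - r ^ 2) : ℝ), 0, (r / Real.sqrt (1 - r ^ 2) : ℝ); 0, 1, 0;
    (r / Real.sqrt (1 - r ^ 2) : ℝ), 0, (1 / Real.sqrt (1 - r ^ 2) : ℝ)]

theorem bM_mul {r : ℝ} (h : r ^ 2 < 1) : bM r * bM (-r) = 1 := by
  obtain ⟨s, hs, h2, e⟩ : ∃ s : ℝ, s ≠ 0 ∧ s ^ 2 = 1 - r ^ 2 ∧ Real.sqrt (1 - r ^ 2) = s :=
    ⟨_, (Real.sqrt_pos.2 (by linarith)).ne', Real.sq_sqrt (by linarith), rfl⟩
  have h3 : (s : ℂ) ≠ 0 := Complex.ofReal_ne_zero.2 hs
  have h4 : (s : ℂ) ^ 2 = 1 - (r : ℂ) ^ 2 := by exact_mod_cast h2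
  ext i j
  fin_cases i <;> fin_cases j <;> simp [bM, e, Matrix.mul_apply, Fin.sum_univ_three] <;>
    field_simp <;> first | ring1 | linear_combination -h4

noncomputable def bG (r : ℝ) (h : r ^ 2 < 1) : GL (Fin 3) ℂ :=
  ⟨bM r, bM (-r), bM_mul h, by simpa using bM_mul (r := -r) (by simpa using h)⟩

theorem bG_uni {r : ℝ} (h : r ^ 2 < 1) : Uni (bG r h) := fun z w => by
  obtain ⟨s, hs, h2, e⟩ : ∃ s : ℝ, s ≠ 0 ∧ s ^ 2 = 1 - r ^ 2 ∧ Real.sqrt (1 - r ^ 2) = s :=
    ⟨_, (Real.sqrt_pos.2 (by linarith)).ne', Real.sq_sqrt (by linarith), rfl⟩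
  have h3 : (s : ℂ) ≠ 0 := Complex.ofReal_ne_zero.2 hs
  have h4 : (s : ℂ) ^ 2 = 1 - (r : ℂ) ^ 2 := by exact_mod_cast h2
  simp [bG, bM, e, form, mulVec, dotProduct, Fin.sum_univ_three]
  field_simp
  linear_combination (z 2 * starRingEnd ℂ (w 2) - z 0 * starRingEnd ℂ (w 0)) * h4

theorem actS_bij {u : GL (Fin 3) ℂ} (hu : Uni u) : Function.Bijective (actS u hu) := by
  refine Function.bijective_iff_has_inverse.2 ⟨actS u⁻¹ (uni_inv hu), fun p => Subtype.ext ?_,
    fun p => Subtype.ext ?_⟩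
  · change act u⁻¹ (act u p.1) = p.1
    rw [← act_mul (uni_inv hu) hu (le_of_eq p.2), inv_mul_cancel, act_one]
  · change act u (act u⁻¹ p.1) = p.1
    rw [← act_mul hu (uni_inv hu) (le_of_eq p.2), mul_inv_cancel, act_one]

theorem bM_cont {r : ℝ} (ht : ∀ t : unitInterval, ((t : ℝ) * r) ^ 2 < 1) (i : Fin 3) :
    Continuous fun p : unitInterval × S3 => (bM (p.1 * r)).mulVec (vc p.2.1) i := by
  have ne : ∀ p : unitInterval × S3, Real.sqrt (1 - ((p.1 : ℝ) * r) ^ 2) ≠ 0 := fun p =>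
    (Real.sqrt_pos.2 (sub_pos.2 (ht p.1))).ne'
  have c1 : Continuous fun p : unitInterval × S3 =>
      ((1 / Real.sqrt (1 - ((p.1 : ℝ) * r) ^ 2) : ℝ) : ℂ) :=
    Complex.continuous_ofReal.comp (continuous_const.div (by fun_prop) ne)
  have c2 : Continuous fun p : unitInterval × S3 =>
      (((p.1 : ℝ) * r / Real.sqrt (1 - ((p.1 : ℝ) * r) ^ 2) : ℝ) : ℂ) :=
    Complex.continuous_ofReal.comp (Continuous.div (by fun_prop) (by fun_prop) ne)
  have a : Continuous fun p : unitInterval × S3 => p.2.1.1 := by fun_prop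
  have b : Continuous fun p : unitInterval × S3 => p.2.1.2 := by fun_prop
  fin_cases i
  · exact ((c1.mul a).add c2).congr fun p => by
      simp [bM, vc, mulVec, dotProduct, Fin.sum_univ_three]
  · exact b.congr fun p => by simp [bM, vc, mulVec, dotProduct, Fin.sum_univ_three]
  · exact ((c2.mul a).add c1).congr fun p => by
      simp [bM, vc, mulVec, dotProduct, Fin.sum_univ_three]

theorem boost_congr {r s : ℝ} (h : r ^ 2 < 1) (h' : s ^ 2 < 1) (e : r = s) :
    actS _ (bG_uni h) = actS _ (bG_uni h') := by subst e; rfl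

theorem iso0_boost {r : ℝ} (h : r ^ 2 < 1) : Iso0 (actS _ (bG_uni h)) := by
  have ht : ∀ t : unitInterval, ((t : ℝ) * r) ^ 2 < 1 := fun t => by
    have : (t : ℝ) ^ 2 ≤ 1 := pow_le_one₀ t.2.1 t.2.2
    rw [mul_pow]; nlinarith [sq_nonneg r]
  have c := bM_cont ht
  have d : ∀ p : unitInterval × S3, (bM (p.1 * r)).mulVec (vc p.2.1) 2 ≠ 0 := fun p =>
    den_ne (bG_uni (ht p.1)) (le_of_eq p.2.2)
  have c' : Continuous fun p : unitInterval × S3 => act (bG _ (ht p.1)) p.2.1 :=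
    (((c 0).div (c 2) d).prodMk ((c 1).div (c 2) d)).congr fun _ => rfl
  have h0 : ∀ x : S3, actS _ (bG_uni (ht 0)) x = x := fun x => Subtype.ext (act_of one_ne_zero (by
    funext i
    fin_cases i <;> simp [bG, bM, vc, mulVec, dotProduct, Fin.sum_univ_three]))
  rw [boost_congr h (ht 1) (by simp)]
  exact iso0_of (a := fun p => actS _ (bG_uni (ht p.1)) p.2) (c'.subtype_mk _)
    (fun t => actS_bij (bG_uni (ht t))) h0

/-- the matrix of a rotation -/
noncomputable def rM (a b : ℂ) : M3 := !![a, -starRingEnd ℂ b, 0; b, starRingEnd ℂ a, 0; 0, 0, 1]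

theorem s3_c (a : S3) : a.1.1 * starRingEnd ℂ a.1.1 + a.1.2 * starRingEnd ℂ a.1.2 = 1 := by
  rw [Complex.mul_conj, Complex.mul_conj, Complex.normSq_eq_norm_sq, Complex.normSq_eq_norm_sq]
  exact_mod_cast a.2

noncomputable def rG (a : S3) : GL (Fin 3) ℂ :=
  ⟨rM a.1.1 a.1.2, rM (starRingEnd ℂ a.1.1) (-a.1.2), by
    have := s3_c a
    ext i j
    fin_cases i <;> fin_cases j <;> simp [rM, Matrix.mul_apply, Fin.sum_univ_three] <;>
      first | ring1 | linear_combination this, by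
    have := s3_c a
    ext i j
    fin_cases i <;> fin_cases j <;> simp [rM, Matrix.mul_apply, Fin.sum_univ_three] <;>
      first | ring1 | linear_combination this⟩

theorem rG_uni (a : S3) : Uni (rG a) := fun z w => by
  have := s3_c a
  simp [rG, rM, form, mulVec, dotProduct, Fin.sum_univ_three]
  linear_combination (z 0 * starRingEnd ℂ (w 0) + z 1 * starRingEnd ℂ (w 1)) * this

theorem rG_act (a : S3) (p : ℂ × ℂ) : act (rG a) p =
    (a.1.1 * p.1 - starRingEnd ℂ a.1.2 * p.2, a.1.2 * p.1 + starRingEnd ℂ a.1.1 * p.2) :=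
  act_of one_ne_zero (by
    funext i
    fin_cases i <;> simp [rG, rM, vc, mulVec, dotProduct, Fin.sum_univ_three]
    ring)

/-- an isometry that fixes the centre -/
theorem iso0_fix {k : GL (Fin 3) ℂ} (hk : Uni k) (h0 : act k (0, 0) = (0, 0)) :
    Iso0 (actS k hk) := by
  have z : nq ((0, 0) : ℂ × ℂ) ≤ 1 := by simp [nq]
  have e := act_vc hk z
  have d := den_ne hk z
  rw [h0] at e
  have e02 : (k : M3) 0 2 = 0 := by
    simpa [vc, mulVec, dotProduct, Fin.sum_univ_three] using congrFun e 0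
  have e12 : (k : M3) 1 2 = 0 := by
    simpa [vc, mulVec, dotProduct, Fin.sum_univ_three] using congrFun e 1
  have d' : (k : M3) 2 2 ≠ 0 := by
    simpa [vc, mulVec, dotProduct, Fin.sum_univ_three] using d
  have f22 := hk ![0, 0, 1] ![0, 0, 1]
  have f02 := hk ![1, 0, 0] ![0, 0, 1]
  have f12 := hk ![0, 1, 0] ![0, 0, 1]
  have f00 := hk ![1, 0, 0] ![1, 0, 0]
  have f11 := hk ![0, 1, 0] ![0, 1, 0]
  have f10 := hk ![0, 1, 0] ![1, 0, 0]
  have f01 := hk ![1, 0, 0] ![0, 1, 0]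
  simp [form, mulVec, dotProduct, Fin.sum_univ_three, e02, e12, d'] at f22 f02 f12
  simp [form, mulVec, dotProduct, Fin.sum_univ_three, f02, f12] at f00 f11 f10 f01
  generalize hα : (k : M3) 0 0 = α at *
  generalize hβ : (k : M3) 0 1 = β at *
  generalize hγ : (k : M3) 1 0 = γ at *
  generalize hδ : (k : M3) 1 1 = δ at *
  generalize hl : (k : M3) 2 2 = l at *
  have nl : ‖l‖ = 1 := by
    rw [Complex.mul_conj, Complex.normSq_eq_norm_sq] at f22
    have : ‖l‖ ^ 2 = 1 := by exact_mod_cast f22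
    nlinarith [norm_nonneg l]
  let a : S3 := ⟨(α / l, γ / l), by
    rw [Complex.mul_conj, Complex.mul_conj, Complex.normSq_eq_norm_sq,
      Complex.normSq_eq_norm_sq] at f00
    simp only [norm_div, nl, div_one]
    exact_mod_cast f00⟩
  obtain ⟨μ, hμ⟩ : ∃ μ, μ = (α * δ - β * γ) / l ^ 2 := ⟨_, rfl⟩
  have nμ : ‖μ‖ = 1 := by
    have : (α * δ - β * γ) * starRingEnd ℂ (α * δ - β * γ) = 1 := by
      simp only [map_sub, map_mul]
      linear_combination (β * starRingEnd ℂ β + δ * starRingEnd ℂ δ) * f00 + f11 -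
        (α * starRingEnd ℂ β + γ * starRingEnd ℂ δ) * f10
    rw [Complex.mul_conj, Complex.normSq_eq_norm_sq] at this
    have : ‖α * δ - β * γ‖ ^ 2 = 1 := by exact_mod_cast this
    rw [hμ, norm_div, norm_pow, nl]
    nlinarith [norm_nonneg (α * δ - β * γ)]
  have eμ : Complex.exp (Complex.arg μ * Complex.I) = μ := by
    simpa [nμ] using Complex.norm_mul_exp_arg_mul_I μ
  have cl : starRingEnd ℂ l = 1 / l := by field_simp; linear_combination f22
  have : actS k hk = rot a ∘ ph (Complex.arg μ) := funext fun p => Subtype.ext (act_of d' (by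
    funext i
    fin_cases i <;> simp [vc, mulVec, dotProduct, Fin.sum_univ_three, hα, hβ, hγ, hδ, hl, e02, e12,
      f02, f12, rot, ph, eμ, a, cl] <;> rw [hμ] <;> field_simp
    · linear_combination (-β * p.1.2) * f00 + (α * p.1.2) * f10
    · linear_combination (-δ * p.1.2) * f00 + (γ * p.1.2) * f10))
  exact this ▸ (iso0_rot a).comp (iso0_ph _)

theorem iso0_uni {u : GL (Fin 3) ℂ} (hu : Uni u) : Iso0 (actS u hu) := by
  have z : nq ((0, 0) : ℂ × ℂ) < 1 := by simp [nq]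
  have ho := act_lt hu z
  obtain ⟨r, a, hr, e⟩ : ∃ (r : ℝ) (a : S3), r ^ 2 < 1 ∧ act u (0, 0) = (r * a.1.1, r * a.1.2) := by
    generalize act u (0, 0) = o at ho
    have n0 : 0 ≤ nq o := by rw [nq]; positivity
    rcases n0.eq_or_lt with h | h
    · refine ⟨0, pole, by norm_num, ?_⟩
      rw [nq] at h
      refine Prod.ext ?_ ?_ <;> simp only [Complex.ofReal_zero, zero_mul] <;>
        apply norm_eq_zero.1 <;> nlinarith [norm_nonneg o.1, norm_nonneg o.2]
    · have s := Real.sqrt_pos.2 h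
      have s' : ((Real.sqrt (nq o) : ℝ) : ℂ) ≠ 0 := Complex.ofReal_ne_zero.2 s.ne'
      refine ⟨Real.sqrt (nq o), ⟨(o.1 / Real.sqrt (nq o), o.2 / Real.sqrt (nq o)), ?_⟩,
        by rwa [Real.sq_sqrt n0], Prod.ext ?_ ?_⟩
      · simp only [norm_div, Complex.norm_real, Real.norm_eq_abs, div_pow, sq_abs, Real.sq_sqrt n0]
        rw [← add_div]; exact div_self h.ne'
      · simp only; field_simp
      · simp only; field_simp
  have U := uni_mul (rG_uni a) (bG_uni hr)
  have e' : act (rG a * bG r hr) (0, 0) = act u (0, 0) := by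
    have s : ((Real.sqrt (1 - r ^ 2) : ℝ) : ℂ) ≠ 0 :=
      Complex.ofReal_ne_zero.2 (Real.sqrt_pos.2 (sub_pos.2 hr)).ne'
    have b : act (bG r hr) (0, 0) = ((r : ℂ), 0) := act_of (inv_ne_zero s) (by
      funext i
      fin_cases i <;> simp [bG, bM, vc, mulVec, dotProduct, Fin.sum_univ_three]
      field_simp)
    rw [act_mul (rG_uni a) (bG_uni hr) z.le, b, rG_act, e]
    simp [mul_comm]
  have K := uni_mul (uni_inv U) hu
  have k0 : act ((rG a * bG r hr)⁻¹ * u) (0, 0) = (0, 0) := by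
    rw [act_mul (uni_inv U) hu z.le, ← e', ← act_mul (uni_inv U) U z.le, inv_mul_cancel, act_one]
  have : actS u hu = (rot a ∘ actS _ (bG_uni hr)) ∘ actS _ K := funext fun p => Subtype.ext (by
    have hp : nq p.1 ≤ 1 := le_of_eq p.2
    change act u p.1 = (rot a (actS _ (bG_uni hr) (actS _ K p))).1
    refine Eq.trans ?_ (rG_act a _)
    change act u p.1 = act (rG a) (act (bG r hr) (act _ p.1))
    rw [← act_mul (rG_uni a) (bG_uni hr) (act_le K hp), ← act_mul U K hp, mul_inv_cancel_left])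
  exact this ▸ ((iso0_rot a).comp (iso0_boost hr)).comp (iso0_fix K k0)

theorem general_of (h : AmbIso limitSet mengerS3) (u : GL (Fin 3) ℂ) (hu : Uni u) (o : ℂ × ℂ)
    (ho : ‖o.1‖ ^ 2 + ‖o.2‖ ^ 2 < 1) : AmbIso (limU u o) mengerS3 :=
  limU_eq hu ho ▸ (iso0_uni hu).amb h

end Pool.Agent.Lib.MP_b7d179_gt.F
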