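import Pool.Agent.Lib.MP_b7d179_gt.F.Round
import Pool.Agent.Lib.MP_b7d179_gt.U.Ext

/-! The ambient isotopy from the three exports. -/

namespace Pool.Agent.Lib.MP_b7d179_gt.F

open Set Metric Stmt L

/-- the export of part L -/
def LEx : Prop :=
  ∀ Γ : Geo S3, ∃ σ : Tw S3, σ.K = Γ.K ∧ σ.Ok ∧ G σ (Γ.R root) (Γ.R (br 43 0 0))

/-- the export of part M -/
def MEx : Prop :=
  ∃ τ : Tw (Fin 3 → ℝ), τ.K = sponge ∧ τ.Ok ∧
    G τ (closedBall (fun _ => 1 / 2) 1) (sphere (fun _ => 1 / 2) 1)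

theorem final_of (hG : GeoEx) (hL : LEx) (hM : MEx) : AmbIso limitSet mengerS3 := by
  obtain ⟨Γ, hK, h, hm, hs⟩ := hG
  obtain ⟨σ, eK, ok, g⟩ := hL Γ
  obtain ⟨τ, eK', ok', g'⟩ := hM
  obtain ⟨k, km, kb, ks⟩ := cube_round
  have g1 := G.move (σ := σ) g (eK ▸ hm)
  have g2 := G.move (σ := τ) g' (eK' ▸ km)
  rw [kb, ks] at g2
  have b0 := g.ball ok.toOk0
  have b1 := g1.ball ok.toOk0
  have b2 := g2.ball ok'.toOk0
  have b3 := g'.ball ok'.toOk0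
  have d0 : Disjoint (Γ.R (br 43 0 0)) Γ.K :=
    Γ.fre.mono_left (Γ.ok.rl.sub (by decide +kernel))
  have d1 : Disjoint (h '' Γ.R (br 43 0 0)) Γ.K := (hm.disj b0.rim_sub).2 d0
  have sb : sponge ⊆ ball (fun _ => 1 / 2) 1 := fun x hx =>
    mem_ball_iff_norm.2 ((sponge_sub hx).trans_lt (by norm_num))
  have d2 : Disjoint {x | qd x = 0} sponge := by
    rw [← ks]
    exact (km.disj b3.rim_sub).2 (sphere_disjoint_ball.mono_right sb)
  have s2 : sponge ⊆ {x | qd x ≤ 0} := fun x hx => by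
    rw [← kb]
    exact ((km.inter subset_rfl).ge ⟨hx, ball_subset_closedBall (sb hx)⟩).2
  have s0 : Γ.K ⊆ Γ.R root := fun x hx => by
    rw [root, Γ.ok.rl.df]
    exact ⟨Γ.all hx, fun h' => disjoint_left.1 Γ.fre (Γ.ok.rl.sub (by decide +kernel) h') hx⟩
  have s1 : Γ.K ⊆ h '' Γ.R root := fun x hx => ((hm.inter subset_rfl).ge ⟨hx, s0 hx⟩).2
  rw [← hK]
  refine amb_of_match hs round_std b1 s1 fun φ hφ hi => ?_
  obtain ⟨ψ, eψ, l, r, im⟩ := (st_emb.mono (subset_univ _)).inv b2.compact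
  have sub : φ '' (h '' Γ.R (br 43 0 0)) ⊆ st '' {x | qd x ≤ 0} :=
    hi ▸ image_mono b2.rim_sub
  have e1 : (ψ ∘ φ) '' (h '' Γ.R (br 43 0 0)) = {x | qd x = 0} := by
    rw [image_comp, hi, im _ b2.rim_sub]
  obtain ⟨H, hH, HB, HS, HK⟩ := ext ok ok' g1 g2 (eψ.comp hφ sub) e1 fun x hx =>
    iff_of_false (eK ▸ disjoint_left.1 d1 hx) (eK' ▸ disjoint_left.1 d2 (e1 ▸ mem_image_of_mem _ hx))
  rw [eK, eK'] at HK
  refine ⟨st ∘ H, st_emb.comp hH (subset_univ _), by rw [image_comp, HB], fun x hx => ?_, ?_⟩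
  · change st (H x) = φ x
    rw [HS hx]
    exact r _ (sub (mem_image_of_mem _ hx))
  · ext p
    constructor
    · rintro ⟨x, hx, rfl⟩
      exact ⟨H x, (HK x (s1 hx)).1 hx, rfl⟩
    · rintro ⟨y, hy, e⟩
      obtain ⟨x, hx, rfl⟩ := HB.ge (s2 hy)
      exact ⟨x, (HK x hx).2 hy, Subtype.ext e.symm⟩

end Pool.Agent.Lib.MP_b7d179_gt.F
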