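import Pool.Agent.Lib.MP_b7d179_gt.Stmt3
import Pool.Agent.Lib.MP_b7d179_gt.F.Conn
import Pool.Agent.Lib.MP_b7d179_gt.G.Ping

/-! Algebra of regular hexagons, real charts, reflections in sides. -/

namespace Pool.Agent.Lib.MP_b7d179_gt.F

open Set Stmt Matrix

theorem hex_mid {p1 p2 q1 q2 m1 m2 s c : ℝ} (hp : p1 ^ 2 + p2 ^ 2 = s) (hq : q1 ^ 2 + q2 ^ 2 = s)
    (hm : m1 ^ 2 + m2 ^ 2 = s) (e1 : p1 * m1 + p2 * m2 = c) (e2 : m1 * q1 + m2 * q2 = c)
    (n : ¬ (p1 = q1 ∧ p2 = q2)) : s * (p1 + q1) = 2 * c * m1 ∧ s * (p2 + q2) = 2 * c * m2 := by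
  have d : (p1 + q1) * m2 - (p2 + q2) * m1 = 0 := by
    by_contra d
    refine n ⟨sub_eq_zero.1 (mul_right_cancel₀ d ?_), sub_eq_zero.1 (mul_right_cancel₀ d ?_)⟩
    · linear_combination m2 * (hp - hq) - (p2 + q2) * (e1 - e2)
    · linear_combination (p1 + q1) * (e1 - e2) - m1 * (hp - hq)
  constructor
  · linear_combination m2 * d + m1 * (e1 + e2) - (p1 + q1) * hm
  · linear_combination -m1 * d + m2 * (e1 + e2) - (p2 + q2) * hm

theorem hex_k {a : Fin 6 → ℝ} {k : ℝ} (h : ∀ i, a i + a (i + 2) = k * a (i + 1)) (h1 : k ≠ 1)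
    (h2 : k ≠ -2) : a 0 = a 3 := by
  have e0 : a 0 + a 2 = k * a 1 := h 0
  have e1 : a 1 + a 3 = k * a 2 := h 1
  have e2 : a 2 + a 4 = k * a 3 := h 2
  have e3 : a 3 + a 5 = k * a 4 := h 3
  have e4 : a 4 + a 0 = k * a 5 := h 4
  have e5 : a 5 + a 1 = k * a 0 := h 5
  have n1 := sub_ne_zero.2 h1
  have n2 : k + 2 ≠ 0 := fun e => h2 (by linarith)
  have d : a 2 - a 5 = a 0 - a 3 :=
    mul_left_cancel₀ n1 (by linear_combination e4 - e1 + e5 - e2 + 0 * e0)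
  refine sub_eq_zero.1 (mul_left_cancel₀ n1 (mul_left_cancel₀ n2 ?_))
  linear_combination e3 - e0 + k * (e2 - e5) + (1 - k) * d

theorem hex_alg {a b : Fin 6 → ℝ} {s c : ℝ} (hs : ∀ i, a i ^ 2 + b i ^ 2 = s)
    (hc : ∀ i, a i * a (i + 1) + b i * b (i + 1) = c)
    (hr : (1 - (a 0 * a 2 + b 0 * b 2)) * (1 - s) = (1 - c) ^ 2)
    (n : ∀ i j, a i = a j → b i = b j → i = j) :
    s = 2 / 3 ∧ c = 1 / 3 ∧ ∀ i, a (i + 2) = a (i + 1) - a i ∧ b (i + 2) = b (i + 1) - b i := by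
  have f : ∀ x y : ℝ, x ^ 2 + y ^ 2 = 0 → x = 0 ∧ y = 0 := fun x y h =>
    ⟨by nlinarith [sq_nonneg x, sq_nonneg y], by nlinarith [sq_nonneg x, sq_nonneg y]⟩
  have s0 : s ≠ 0 := fun e => by
    have h0 := f _ _ ((hs 0).trans e)
    have h1 := f _ _ ((hs 1).trans e)
    exact absurd (n 0 1 (h0.1.trans h1.1.symm) (h0.2.trans h1.2.symm)) (by decide)
  have m := fun i => hex_mid (hs i) (hs (i + 2)) (hs (i + 1)) (hc i)
    (by rw [← hc (i + 1), add_assoc]; rfl) fun e =>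
      (by decide : ∀ i : Fin 6, i ≠ i + 2) i (n _ _ e.1 e.2)
  have ma : ∀ i, a i + a (i + 2) = 2 * c / s * a (i + 1) := fun i => by
    field_simp; linear_combination (m i).1
  have mb : ∀ i, b i + b (i + 2) = 2 * c / s * b (i + 1) := fun i => by
    field_simp; linear_combination (m i).2
  have k : 2 * c / s = 1 := by
    by_contra k
    by_cases k2 : 2 * c / s = -2
    · have e : c = -s := by field_simp at k2; linarith
      have h0 := hs 0
      have h1 := hs 1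
      have h2 := hs 2
      have c0 : a 0 * a 1 + b 0 * b 1 = c := hc 0
      have c1 : a 1 * a 2 + b 1 * b 2 = c := hc 1
      have z0 : (a 0 + a 1) ^ 2 + (b 0 + b 1) ^ 2 = 0 := by linarith
      have z1 : (a 1 + a 2) ^ 2 + (b 1 + b 2) ^ 2 = 0 := by linarith
      exact absurd (n 0 2 (by linarith [(f _ _ z0).1, (f _ _ z1).1])
        (by linarith [(f _ _ z0).2, (f _ _ z1).2])) (by decide)
    · exact absurd (n 0 3 (hex_k ma k k2) (hex_k mb k k2)) (by decide)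
  rw [k] at ma mb
  have e : s = 2 * c := by field_simp at k; linarith
  have a2 : a 0 + a 2 = 1 * a 1 := ma 0
  have b2 : b 0 + b 2 = 1 * b 1 := mb 0
  have c0 : a 0 * a 1 + b 0 * b 1 = c := hc 0
  have d : a 0 * a 2 + b 0 * b 2 = -c := by
    linear_combination a 0 * a2 + b 0 * b2 + c0 - hs 0 - e
  rw [d, e] at hr
  have c1 : c = 1 / 3 := mul_left_cancel₀ (a := c) (fun z => s0 (by linarith))
    (by linear_combination (-1 / 3 : ℝ) * hr)
  exact ⟨by linarith, c1, fun i => ⟨by linarith [ma i], by linarith [mb i]⟩⟩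

variable {u : GL (Fin 3) ℂ} {p q : ℂ × ℂ}

theorem ch_act (hu : Uni u) (hp : nq p ≤ 1) (hq : nq q ≤ 1) : ch (act u p) (act u q) = ch p q := by
  have d1 := norm_pos_iff.2 (den_ne hu hp)
  have d2 := norm_pos_iff.2 (den_ne hu hq)
  change _ / √(‖form (vc _) (vc _)‖ * ‖form (vc _) (vc _)‖) =
    ‖form (vc _) (vc _)‖ / √(‖form (vc _) (vc _)‖ * ‖form (vc _) (vc _)‖)
  rw [← form_act hu hp hq, ← form_act hu hp hp, ← form_act hu hq hq, show ∀ x y a b : ℝ,
    x * x * a * (y * y * b) = (x * y) ^ 2 * (a * b) from fun _ _ _ _ => by ring,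
    Real.sqrt_mul (sq_nonneg _), Real.sqrt_sq (mul_pos d1 d2).le,
    mul_div_mul_left _ _ (mul_pos d1 d2).ne']
  rfl

theorem form_real (a b a' b' : ℝ) :
    form (lift ((a : ℂ), (b : ℂ))) (lift ((a' : ℂ), (b' : ℂ))) = ((a * a' + b * b' - 1 : ℝ) : ℂ) := by
  simp [form, lift]

theorem ch_real {a b a' b' : ℝ} (h : a ^ 2 + b ^ 2 < 1) (h' : a' ^ 2 + b' ^ 2 < 1) :
    ch ((a : ℂ), (b : ℂ)) ((a' : ℂ), (b' : ℂ)) =
      (1 - (a * a' + b * b')) / √((1 - (a ^ 2 + b ^ 2)) * (1 - (a' ^ 2 + b' ^ 2))) := by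
  simp only [ch, form_real, Complex.norm_real, Real.norm_eq_abs]
  rw [abs_of_neg (by nlinarith [sq_nonneg (a - a'), sq_nonneg (b - b')]), abs_of_neg (by nlinarith),
    abs_of_neg (by nlinarith)]
  congr 2 <;> ring

theorem nq_real (a b : ℝ) : nq ((a : ℂ), (b : ℂ)) = a ^ 2 + b ^ 2 := by simp [nq]

/-- a real involution that moves the centre to a given real point -/
theorem swap_ex {a b : ℝ} (h : a ^ 2 + b ^ 2 < 1) : ∃ v : GL (Fin 3) ℂ, Uni v ∧ v * v = 1 ∧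
    act v (0, 0) = ((a : ℂ), (b : ℂ)) ∧
    ∀ x y : ℝ, ∃ x' y' : ℝ, act v ((x : ℂ), (y : ℂ)) = ((x' : ℂ), (y' : ℂ)) := by
  obtain ⟨t, t0, t2⟩ : ∃ t : ℝ, 0 < t ∧ t ^ 2 = 1 - (a ^ 2 + b ^ 2) :=
    ⟨_, Real.sqrt_pos.2 (sub_pos.2 h), Real.sq_sqrt (sub_pos.2 h).le⟩
  have n1 : (t : ℂ) ≠ 0 := Complex.ofReal_ne_zero.2 t0.ne'
  have n2 : (1 + t : ℂ) ≠ 0 := by exact_mod_cast (by positivity : (1 + t : ℝ) ≠ 0)
  have t3 : (t : ℂ) ^ 2 = 1 - ((a : ℂ) ^ 2 + (b : ℂ) ^ 2) := by exact_mod_cast t2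
  obtain ⟨M, hM⟩ : ∃ M : M3, ∀ z, M.mulVec z = z +
      ((z 0 * a + z 1 * b - z 2 * (1 + t)) / (t * (1 + t))) • ![(a : ℂ), b, 1 + t] :=
    ⟨1 + (1 / (t * (1 + t)) : ℂ) • vecMulVec ![(a : ℂ), b, 1 + t] ![(a : ℂ), b, -(1 + t)],
      fun z => by
        funext i
        fin_cases i <;> simp [vecMulVec, mulVec, dotProduct,
          Fin.sum_univ_three, one_apply] <;> field_simp <;> ring⟩
  have m2 : M * M = 1 := ext_iff_mulVec.2 fun z => by
    rw [← mulVec_mulVec, hM, hM, one_mulVec]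
    funext i
    fin_cases i <;> simp [vecHead, vecTail] <;> field_simp
    · linear_combination (a * (z 0 * a + z 1 * b - z 2 * (1 + t))) * t3
    · linear_combination (b * (z 0 * a + z 1 * b - z 2 * (1 + t))) * t3
    · linear_combination (z 0 * a + z 1 * b - z 2 * (1 + t)) * t3
  refine ⟨⟨M, M, m2, m2⟩, fun z w => ?_, Units.ext m2, act_of (d := -1 / t) (by simpa using t0.ne') ?_,
    fun x y => ?_⟩
  · change form (M.mulVec z) (M.mulVec w) = _
    rw [hM, hM]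
    simp [form]
    field_simp
    linear_combination ((z 0 * a + z 1 * b - z 2 * (1 + t)) * (starRingEnd ℂ (w 0) * a +
      starRingEnd ℂ (w 1) * b - starRingEnd ℂ (w 2) * (1 + t))) * t3
  · change M.mulVec _ = _
    rw [hM]
    funext i
    fin_cases i <;> simp [vc, -mul_eq_mul_right_iff] <;> field_simp <;> ring
  · obtain ⟨l, hl⟩ : ∃ l : ℝ, l = (x * a + y * b - (1 + t)) / (t * (1 + t)) := ⟨_, rfl⟩
    refine ⟨(x + l * a) / (1 + l * (1 + t)), (y + l * b) / (1 + l * (1 + t)), ?_⟩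
    change (M.mulVec _ 0 / M.mulVec _ 2, M.mulVec _ 1 / M.mulVec _ 2) = _
    rw [hM, hl]
    simp

/-- two maps that agree on the lifts of two vertices and on the polar vector -/
theorem hex_span {a b a' b' : ℝ} {r : ℂ} (hr : r * r = 2) (d : a * b' - b * a' ≠ 0) (z : Fin 3 → ℂ) :
    ∃ x y w : ℂ, z = x • lift ((a : ℂ), (b : ℂ)) + y • lift ((a' : ℂ), (b' : ℂ)) +
      w • ![((a : ℂ) + a') / r, ((b : ℂ) + b') / r, 1 / r] := by
  have d' : (a : ℂ) * b' - b * a' ≠ 0 := by exact_mod_cast d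
  have r0 : r ≠ 0 := fun e => by simp [e] at hr
  obtain ⟨x, hx⟩ : ∃ x, x = (z 0 * b' - z 1 * a') / ((a : ℂ) * b' - b * a') := ⟨_, rfl⟩
  obtain ⟨y, hy⟩ : ∃ y, y = (z 1 * a - z 0 * b) / ((a : ℂ) * b' - b * a') := ⟨_, rfl⟩
  rw [eq_div_iff d'] at hx hy
  have e0 : z 0 = x * a + y * a' := mul_right_cancel₀ d' (by linear_combination -a * hx - a' * hy)
  have e1 : z 1 = x * b + y * b' := mul_right_cancel₀ d' (by linear_combination -b * hx - b' * hy)
  refine ⟨x + (z 2 - x - y), y + (z 2 - x - y), -(z 2 - x - y) * r, ?_⟩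
  funext i
  fin_cases i <;> simp [lift] <;> field_simp
  · linear_combination e0
  · linear_combination e1
  · ring

theorem refl_perp {c z : Fin 3 → ℂ} (h : form z c = 0) : reflIn c z = z := by simp [reflIn, h]

theorem form_swap {z w : Fin 3 → ℂ} (h : form z w = 0) : form w z = 0 := by
  have : form w z = starRingEnd ℂ (form z w) := by simp [form]; ring
  rw [this, h, map_zero]

theorem refl_lin (c A B C : Fin 3 → ℂ) (x y w : ℂ) : reflIn c (x • A + y • B + w • C) =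
    x • reflIn c A + y • reflIn c B + w • reflIn c C := by
  funext k
  simp only [reflIn, form, Pi.add_apply, Pi.smul_apply, smul_eq_mul]
  ring

theorem refl_self {c : Fin 3 → ℂ} (h : form c c ≠ 0) : reflIn c c = om • c := by
  rw [reflIn, mul_div_assoc, div_self h, mul_one, sub_smul, one_smul, add_sub_cancel]

/-- a reflection in a side, read in a chart -/
theorem crefl_eq (hu : Uni u) (hp : nq p ≤ 1) (hq : nq q ≤ 1) {c : Fin 3 → ℂ}
    (h1 : form c (lift p) = 0) (h2 : form c (lift q) = 0) (hc : form c c ≠ 0)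
    (sp : ∀ z, ∃ x y w : ℂ, z = x • lift p + y • lift q + w • c) {g : GL (Fin 3) ℂ}
    (hg : CRefl (act u p) (act u q) g) (z : Fin 3 → ℂ) :
    (g : M3).mulVec z = reflIn ((u : M3).mulVec c) z := by
  have k : ∀ p, nq p ≤ 1 → form c (lift p) = 0 →
      form ((u : M3).mulVec c) (lift (act u p)) = 0 := fun p hp h => by
    have e := hu c (vc p)
    rw [act_vc hu hp, ← one_smul ℂ ((u : M3).mulVec c), form_smul, one_mul] at e
    exact (mul_eq_zero.1 (e.trans h)).resolve_left (by simpa using den_ne hu hp)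
  obtain ⟨x, y, w, e⟩ := sp (((u⁻¹ : GL (Fin 3) ℂ) : M3).mulVec z)
  have e' : z = (x * (u : M3).mulVec (vc p) 2) • lift (act u p) +
      (y * (u : M3).mulVec (vc q) 2) • lift (act u q) + w • (u : M3).mulVec c := by
    rw [← gl_cancel u z, e, mulVec_add, mulVec_add, mulVec_smul, mulVec_smul, mulVec_smul, mul_smul,
      mul_smul]
    exact congrArg₂ _ (congrArg₂ _ (congrArg _ (act_vc hu hp)) (congrArg _ (act_vc hu hq))) rfl
  rw [e', refl_lin, mulVec_add, mulVec_add, mulVec_smul, mulVec_smul, mulVec_smul, hg.1, hg.2.1,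
    hg.2.2 _ (k p hp h1) (k q hq h2), refl_perp (form_swap (k p hp h1)),
    refl_perp (form_swap (k q hq h2)), refl_self (by rwa [hu])]

end Pool.Agent.Lib.MP_b7d179_gt.F
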