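import Pool.Agent.Lib.MP_b7d179_gt.F.Hex

/-! The group of a hexagon is a conjugate of the standard group; hexagons exist. -/

namespace Pool.Agent.Lib.MP_b7d179_gt.F

open Set Stmt Matrix

/-- the real coordinates of a hexagon with centre at the origin -/
theorem hex_chart {P : Set (ℂ × ℂ)} {z : Fin 6 → ℂ × ℂ} (hP : RealPlane P) (hz : Hexagon P z) :
    ∃ (u : GL (Fin 3) ℂ) (a b : Fin 6 → ℝ), Uni u ∧ (∀ i, z i = act u ((a i : ℂ), (b i : ℂ))) ∧
      (∀ i, a i ^ 2 + b i ^ 2 = 2 / 3) ∧ (∀ i, a i * a (i + 1) + b i * b (i + 1) = 1 / 3) ∧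
      ∀ i, a (i + 2) = a (i + 1) - a i ∧ b (i + 2) = b (i + 1) - b i := by
  obtain ⟨u, hu, rfl⟩ := hP
  have re : ∀ p ∈ {p ∈ ball2 | p.1.im = 0 ∧ p.2.im = 0}, ∃ a b : ℝ, a ^ 2 + b ^ 2 < 1 ∧
      p = ((a : ℂ), (b : ℂ)) := fun p hp => by
    have e : p = ((p.1.re : ℂ), (p.2.re : ℂ)) :=
      Prod.ext (Complex.ext rfl hp.2.1) (Complex.ext rfl hp.2.2)
    exact ⟨_, _, by rw [← nq_real, ← e]; exact hp.1, e⟩
  obtain ⟨_, ⟨o, ho, rfl⟩, hc⟩ := hz.centre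
  obtain ⟨o1, o2, h, rfl⟩ := re o ho
  obtain ⟨v, hv, vv, v0, vr⟩ := swap_ex h
  have U := uni_mul hu hv
  have ex : ∀ i, ∃ a b : ℝ, a ^ 2 + b ^ 2 < 1 ∧ z i = act (u * v) ((a : ℂ), (b : ℂ)) := fun i => by
    obtain ⟨p, hp, e⟩ := hz.mem i
    obtain ⟨x, y, h, rfl⟩ := re p hp
    obtain ⟨a, b, e'⟩ := vr x y
    have l : nq ((x : ℂ), (y : ℂ)) < 1 := by rwa [nq_real]
    refine ⟨a, b, by rw [← nq_real, ← e']; exact act_lt hv l, ?_⟩
    rw [← e', ← act_mul U hv l.le, mul_assoc, vv, mul_one, e]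
  choose a b lt e using ex
  have z0 : nq (((0 : ℝ) : ℂ), ((0 : ℝ) : ℂ)) ≤ 1 := by simp [nq]
  have le : ∀ i, nq ((a i : ℂ), (b i : ℂ)) ≤ 1 := fun i => by rw [nq_real]; exact (lt i).le
  have eo : act u ((o1 : ℂ), (o2 : ℂ)) = act (u * v) (((0 : ℝ) : ℂ), ((0 : ℝ) : ℂ)) := by
    rw [act_mul hu hv z0, ← v0]; rfl
  have hs : ∀ i, a i ^ 2 + b i ^ 2 = a 0 ^ 2 + b 0 ^ 2 := fun i => by
    have := hc i 0
    rw [eo, e, e, ch_act U z0 (le _), ch_act U z0 (le _), ch_real (by norm_num) (lt _),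
      ch_real (by norm_num) (lt _)] at this
    simp only [zero_mul, add_zero, sub_zero, ne_eq, OfNat.ofNat_ne_zero, not_false_eq_true,
      zero_pow, one_mul, one_div, _root_.inv_inj] at this
    linarith [(Real.sqrt_inj (sub_pos.2 (lt i)).le (sub_pos.2 (lt 0)).le).1 this]
  generalize a 0 ^ 2 + b 0 ^ 2 = s at hs
  have s1 : 0 < 1 - s := sub_pos.2 (hs 0 ▸ lt 0)
  have c : ∀ i j, ch (z i) (z j) = (1 - (a i * a j + b i * b j)) / (1 - s) := fun i j => by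
    rw [e, e, ch_act U (le _) (le _), ch_real (lt _) (lt _), hs, hs, Real.sqrt_mul_self s1.le]
  have hd : ∀ i, a i * a (i + 1) + b i * b (i + 1) = a 0 * a 1 + b 0 * b 1 := fun i => by
    have := hz.side i 0
    rw [c, c, div_left_inj' s1.ne'] at this
    exact sub_right_injective this
  obtain ⟨h1, h2, h3⟩ := hex_alg hs hd (by
    have r := hz.right 0
    have d1 : a 1 * a 2 + b 1 * b 2 = _ := hd 1
    rw [c, c, c] at r
    change (1 - (a 0 * a 2 + b 0 * b 2)) / _ = (1 - (a 0 * a 1 + b 0 * b 1)) / _ *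
      ((1 - (a 1 * a 2 + b 1 * b 2)) / _) at r
    rw [d1] at r
    field_simp at r
    linarith) fun i j h1 h2 => hz.inj (by rw [e, e, h1, h2])
  exact ⟨_, a, b, U, e, fun i => (hs i).trans h1, fun i => (hd i).trans h2, h3⟩

theorem orth_ex {m1 m2 n1 n2 : ℝ} (hm : m1 ^ 2 + m2 ^ 2 = 1) (hn : n1 ^ 2 + n2 ^ 2 = 1)
    (h : m1 * n1 + m2 * n2 = 0) : ∃ Q : GL (Fin 3) ℂ, Uni Q ∧ ∀ z, (Q : M3).mulVec z =
      ![m1 * z 0 + n1 * z 1, m2 * z 0 + n2 * z 1, z 2] := by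
  have hm' : (m1 : ℂ) ^ 2 + (m2 : ℂ) ^ 2 = 1 := by exact_mod_cast hm
  have hn' : (n1 : ℂ) ^ 2 + (n2 : ℂ) ^ 2 = 1 := by exact_mod_cast hn
  have h' : (m1 : ℂ) * n1 + (m2 : ℂ) * n2 = 0 := by exact_mod_cast h
  have e : (!![(m1 : ℂ), m2, 0; n1, n2, 0; 0, 0, 1] : M3) * !![(m1 : ℂ), n1, 0; m2, n2, 0; 0, 0, 1] =
      1 := by
    ext i j
    fin_cases i <;> fin_cases j <;> simp [Matrix.mul_apply, Fin.sum_univ_three] <;>
      first | linear_combination hm' | linear_combination hn' | linear_combination h'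
  have k : ∀ z, (!![(m1 : ℂ), n1, 0; m2, n2, 0; 0, 0, 1] : M3).mulVec z =
      ![m1 * z 0 + n1 * z 1, m2 * z 0 + n2 * z 1, z 2] := fun z => by
    funext i
    fin_cases i <;> simp [mulVec, dotProduct, Fin.sum_univ_three]
  refine ⟨⟨_, _, mul_eq_one_comm.1 e, e⟩, fun z w => ?_, k⟩
  simp only [k]
  simp [form]
  linear_combination (z 0 * starRingEnd ℂ (w 0)) * hm' + (z 1 * starRingEnd ℂ (w 1)) * hn' +
    (z 0 * starRingEnd ℂ (w 1) + z 1 * starRingEnd ℂ (w 0)) * h'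

theorem r2 : ((√2 : ℝ) : ℂ) * (√2 : ℝ) = 2 := by exact_mod_cast Real.mul_self_sqrt zero_le_two

/-- the polar vector of a side -/
theorem side_pol {a b a' b' : ℝ} (h : a ^ 2 + b ^ 2 = 2 / 3) (h' : a' ^ 2 + b' ^ 2 = 2 / 3)
    (d : a * a' + b * b' = 1 / 3) {c : Fin 3 → ℂ}
    (hc : c = ![((a : ℂ) + a') / (√2 : ℝ), ((b : ℂ) + b') / (√2 : ℝ), 1 / (√2 : ℝ)]) :
    form c (lift ((a : ℂ), (b : ℂ))) = 0 ∧ form c (lift ((a' : ℂ), (b' : ℂ))) = 0 ∧
      ∀ z, ∃ x y w : ℂ, z = x • lift ((a : ℂ), (b : ℂ)) + y • lift ((a' : ℂ), (b' : ℂ)) + w • c := by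
  have r0 : ((√2 : ℝ) : ℂ) ≠ 0 := fun e => by simpa [e] using r2
  have h1 : (a : ℂ) ^ 2 + (b : ℂ) ^ 2 = 2 / 3 := by simpa using congrArg Complex.ofReal h
  have h2 : (a' : ℂ) ^ 2 + (b' : ℂ) ^ 2 = 2 / 3 := by simpa using congrArg Complex.ofReal h'
  have h3 : (a : ℂ) * a' + (b : ℂ) * b' = 1 / 3 := by
    have := congrArg Complex.ofReal d
    push_cast at this
    exact this
  subst hc
  refine ⟨?_, ?_, hex_span r2 fun e => ?_⟩
  · simp [form, lift]; field_simp; linear_combination h1 + h3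
  · simp [form, lift]; field_simp; linear_combination h2 + h3
  · have : (a * b' - b * a') ^ 2 = 1 / 3 := by
      linear_combination (a' ^ 2 + b' ^ 2) * h + 2 / 3 * h' - (a * a' + b * b' + 1 / 3) * d
    rw [e] at this
    norm_num at this

theorem hex_group {g : Fin 6 → GL (Fin 3) ℂ} (h : HexRefl g) :
    ∃ u, Uni u ∧ Subgroup.closure (range g) = GamU u := by
  obtain ⟨P, z, hP, hz, hg⟩ := h
  obtain ⟨u, a, b, hu, e, hs, hd, hr⟩ := hex_chart hP hz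
  have s2 := Real.mul_self_sqrt zero_le_two
  have s3 := Real.mul_self_sqrt (zero_le_three (α := ℝ))
  have n2 : √2 ≠ 0 := by positivity
  have d0 : a 0 * a 1 + b 0 * b 1 = 1 / 3 := hd 0
  obtain ⟨Q, hQ, eQ⟩ := orth_ex (m1 := (a 0 + a 1) / √2) (m2 := (b 0 + b 1) / √2)
    (n1 := (a 1 - a 0) * √3 / √2) (n2 := (b 1 - b 0) * √3 / √2)
    (by field_simp; linear_combination hs 0 + hs 1 + 2 * d0 - s2)
    (by field_simp; linear_combination ((a 1 - a 0) ^ 2 + (b 1 - b 0) ^ 2) * s3 +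
      3 * (hs 0 + hs 1 - 2 * d0) - s2)
    (by field_simp; linear_combination √3 * (hs 1 - hs 0))
  have v : ∀ x : Fin 6 → ℝ, (∀ i, x (i + 2) = x (i + 1) - x i) → ∀ i, (x 0 + x 1) / √2 *
      (Gm.mv i).re + (x 1 - x 0) * √3 / √2 * (Gm.mv i).im = (x i + x (i + 1)) / √2 := fun x h i => by
    have x2 : x 2 = x 1 - x 0 := h 0
    have x3 : x 3 = x 2 - x 1 := h 1
    have x4 : x 4 = x 3 - x 2 := h 2
    have x5 : x 5 = x 4 - x 3 := h 3
    fin_cases i <;> simp [Gm.mv, x5, x4, x3, x2] <;> field_simp <;>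
      first | linear_combination (x 1 - x 0) * s3 | linear_combination (x 0 - x 1) * s3 | ring
  have k : ∀ i w, (g i : M3).mulVec w = reflIn (((u * Q : GL (Fin 3) ℂ) : M3).mulVec (pol i)) w :=
    fun i w => by
      have ec : (Q : M3).mulVec (pol i) = ![((a i : ℂ) + a (i + 1)) / (√2 : ℝ),
          ((b i : ℂ) + b (i + 1)) / (√2 : ℝ), 1 / (√2 : ℝ)] := by
        rw [eQ, (Gm.ping_pol i).1, (Gm.ping_pol i).2.1, (Gm.ping_pol i).2.2]
        congr 1
        · exact_mod_cast v a (fun i => (hr i).1) i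
        congr 1
        · exact_mod_cast v b (fun i => (hr i).2) i
        · simp
      obtain ⟨f1, f2, sp⟩ := side_pol (hs i) (hs (i + 1)) (hd i) ec
      rw [Units.val_mul, ← mulVec_mulVec]
      exact crefl_eq hu (by rw [nq_real, hs]; norm_num) (by rw [nq_real, hs]; norm_num) f1 f2
        (by rw [hQ]; exact pol_ne i) sp (e i ▸ e (i + 1) ▸ hg i) w
  refine ⟨u * Q, uni_mul hu hQ, congrArg Subgroup.closure (Set.ext fun x => ⟨?_, ?_⟩)⟩
  · rintro ⟨i, rfl⟩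
    exact ⟨i, k i⟩
  · rintro ⟨i, h⟩
    exact ⟨i, Units.ext (ext_iff_mulVec.2 fun w => (k i w).trans (h w).symm)⟩

theorem hex_of (h : ∀ u, Uni u → ∀ o : ℂ × ℂ, ‖o.1‖ ^ 2 + ‖o.2‖ ^ 2 < 1 → AmbIso (limU u o) mengerS3)
    (g : Fin 6 → GL (Fin 3) ℂ) (hg : HexRefl g) (o : ℂ × ℂ) (ho : o ∈ ball2) :
    AmbIso (limOf (Subgroup.closure (range g)) o) mengerS3 := by
  obtain ⟨u, hu, e⟩ := hex_group hg
  rw [e]
  exact h u hu o ho

/-- the data exist -/
theorem hex_ex : ∃ g, HexRefl g := by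
  choose g hg using Gm.ping_ex
  have s2 := Real.mul_self_sqrt zero_le_two
  have s3 := Real.mul_self_sqrt (zero_le_three (α := ℝ))
  have n2 : 0 < √2 := by positivity
  obtain ⟨t, ht⟩ : ∃ t, t = √2 / 2 := ⟨_, rfl⟩
  obtain ⟨w, hw⟩ : ∃ w, w = √3 * √2 / 6 := ⟨_, rfl⟩
  have t0 : 0 < t := by rw [ht]; positivity
  have w0 : 0 < w := by rw [hw]; positivity
  have t2 : t ^ 2 = 1 / 2 := by rw [ht]; linear_combination s2 / 4
  have w2 : w ^ 2 = 1 / 6 := by rw [hw]; linear_combination (√2 * √2 / 36) * s3 + s2 / 12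
  obtain ⟨a, ha⟩ : ∃ a : Fin 6 → ℝ, a = ![t, t, 0, -t, -t, 0] := ⟨_, rfl⟩
  obtain ⟨b, hb⟩ : ∃ b : Fin 6 → ℝ, b = ![-w, w, 2 * w, w, -w, -(2 * w)] := ⟨_, rfl⟩
  have hs : ∀ i, a i ^ 2 + b i ^ 2 = 2 / 3 := fun i => by
    fin_cases i <;> simp [ha, hb] <;> linarith
  have hd : ∀ i, a i * a (i + 1) + b i * b (i + 1) = 1 / 3 := fun i => by
    fin_cases i <;> simp [ha, hb] <;> linarith
  have he : ∀ i, a i * a (i + 2) + b i * b (i + 2) = -1 / 3 := fun i => by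
    fin_cases i <;> simp [ha, hb] <;> linarith
  have lt : ∀ i, a i ^ 2 + b i ^ 2 < 1 := fun i => by rw [hs]; norm_num
  have c : ∀ i j, ch ((a i : ℂ), (b i : ℂ)) ((a j : ℂ), (b j : ℂ)) =
      (1 - (a i * a j + b i * b j)) / (1 - 2 / 3) := fun i j => by
    rw [ch_real (lt _) (lt _), hs, hs, Real.sqrt_mul_self (by norm_num)]
  have m : ∀ x y : ℝ, x ^ 2 + y ^ 2 < 1 → ((x : ℂ), (y : ℂ)) ∈
      act 1 '' {p ∈ ball2 | p.1.im = 0 ∧ p.2.im = 0} := fun x y h =>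
    ⟨_, ⟨(nq_real x y).trans_lt h, rfl, rfl⟩, act_one _⟩
  refine ⟨g, _, fun i => ((a i : ℂ), (b i : ℂ)), ⟨1, uni_one, rfl⟩, ⟨fun i => m _ _ (lt i),
    fun i j e => ?_, ⟨_, m 0 0 (by norm_num), fun i j => ?_⟩, fun i j => by rw [c, c, hd, hd],
    fun i => ?_⟩, fun i => ?_⟩
  · have e1 : a i = a j := Complex.ofReal_injective (congrArg Prod.fst e)
    have e2 : b i = b j := Complex.ofReal_injective (congrArg Prod.snd e)
    fin_cases i <;> fin_cases j <;> simp [ha, hb] at e1 e2 ⊢ <;> linarith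
  · rw [ch_real (by norm_num) (lt _), ch_real (by norm_num) (lt _), hs, hs]
    simp
  · have := hd (i + 1)
    rw [add_assoc] at this
    rw [c, c, c, he, hd, show a (i + 1) * a (i + 2) + b (i + 1) * b (i + 2) = 1 / 3 from this]
    norm_num
  · have ec : pol i = ![((a i : ℂ) + a (i + 1)) / (√2 : ℝ), ((b i : ℂ) + b (i + 1)) / (√2 : ℝ),
        1 / (√2 : ℝ)] := by
      have v : (Gm.mv i).re = (a i + a (i + 1)) / √2 ∧ (Gm.mv i).im = (b i + b (i + 1)) / √2 := by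
        fin_cases i <;> simp [Gm.mv, ha, hb, ht, hw] <;> (try constructor) <;> field_simp <;>
          (try ring)
      funext j
      fin_cases j
      · exact (Gm.ping_pol i).1.trans (by rw [v.1]; simp)
      · exact (Gm.ping_pol i).2.1.trans (by rw [v.2]; simp)
      · exact (Gm.ping_pol i).2.2.trans (by simp)
    obtain ⟨f1, f2, sp⟩ := side_pol (hs i) (hs (i + 1)) (hd i) ec
    refine ⟨(hg i _).trans (refl_perp (form_swap f1)), (hg i _).trans (refl_perp (form_swap f2)),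
      fun z h1 h2 => ?_⟩
    obtain ⟨x, y, k, rfl⟩ := sp z
    have l : ∀ A B C D : Fin 3 → ℂ, form (x • A + y • B + k • C) D =
        x * form A D + y * form B D + k * form C D := fun A B C D => by
      simp only [form, Pi.add_apply, Pi.smul_apply, smul_eq_mul]; ring
    rw [l, form_real, form_real] at h1 h2
    rw [f1, ← sq, ← sq, hs, mul_comm (a _), mul_comm (b _), hd] at h1
    rw [f2, ← sq, ← sq, hs, hd] at h2
    push_cast at h1 h2
    have x0 : x = 0 := by linear_combination h1 - 2 * h2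
    have y0 : y = 0 := by linear_combination h2 - 2 * h1
    rw [x0, y0, zero_smul, zero_smul, zero_add, zero_add, mulVec_smul, hg, smul_comm]
    exact congrArg _ (refl_self (pol_ne i))

end Pool.Agent.Lib.MP_b7d179_gt.F
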