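import Pool.Agent.Lib.MP_b7d179_gt.F.Cap

/-! The cube is moved onto a round ball, whose stereographic image is a cap. -/

namespace Pool.Agent.Lib.MP_b7d179_gt.F

open Set Metric Stmt L

theorem rad_mono {a s t : ℝ} (ha : 1 ≤ a) (h : s < t) :
    s + max 0 (4 * s - 3) * (a - 1) < t + max 0 (4 * t - 3) * (a - 1) := by
  have : max 0 (4 * s - 3) ≤ max 0 (4 * t - 3) := max_le_max le_rfl (by linarith)
  nlinarith

theorem radial {E : Type*} [NormedAddCommGroup E] [NormedSpace ℝ E] {e : E → ℝ} (ce : Continuous e)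
    (hom : ∀ (t : ℝ) y, 0 ≤ t → e (t • y) = t * e y) (pos : ∀ y ≠ 0, 0 < e y)
    (le : ∀ y, e y ≤ ‖y‖) : ∃ h : E → E, Emb h (closedBall 0 1) ∧
      h '' closedBall 0 1 = {y | e y ≤ 1} ∧ h '' sphere 0 1 = {y | e y = 1} ∧
      (∀ y, ‖y‖ ≤ 3 / 4 → h y = y) ∧ ∀ y, ‖y‖ ≤ ‖h y‖ := by
  let f : ℝ → ℝ → ℝ := fun a s => s + max 0 (4 * s - 3) * (a - 1)
  let h : E → E := fun y => (1 + max 0 (4 * ‖y‖ - 3) * (1 / e y - 1 / ‖y‖)) • y
  have fix : ∀ y, ‖y‖ ≤ 3 / 4 → h y = y := fun y hy => by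
    simp only [h]; rw [max_eq_left (by linarith)]; simp
  have e0 : e 0 = 0 := by simpa using hom 0 0 le_rfl
  have un : ∀ u : E, ‖u‖ = 1 → 0 < e u ∧ 1 ≤ 1 / e u := fun u hu => by
    have := pos u (by rintro rfl; simp at hu)
    exact ⟨this, by rw [le_div_iff₀ this]; linarith [le u]⟩
  have polar : ∀ y : E, y ≠ 0 → ∃ u, ‖u‖ = 1 ∧ y = ‖y‖ • u := fun y hy =>
    ⟨‖y‖⁻¹ • y, norm_smul_inv_norm hy, by
      rw [smul_smul, mul_inv_cancel₀ (norm_ne_zero_iff.2 hy), one_smul]⟩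
  have ray : ∀ (u : E) (s : ℝ), ‖u‖ = 1 → 0 < s → h (s • u) = f (1 / e u) s • u := by
    intro u s hu hs
    have := (un u hu).1
    simp only [h, f, norm_smul, hu, mul_one, Real.norm_eq_abs, abs_of_pos hs, hom s u hs.le,
      smul_smul]
    congr 1
    field_simp
  have fge : ∀ a s, 1 ≤ a → s ≤ f a s := fun a s ha =>
    le_add_of_nonneg_right (mul_nonneg (le_max_left _ _) (by linarith))
  have f1 : ∀ a, f a 1 = a := fun a => by simp only [f]; norm_num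
  have nh : ∀ (u : E) (s : ℝ), ‖u‖ = 1 → 0 < s → ‖h (s • u)‖ = f (1 / e u) s := fun u s hu hs => by
    rw [ray u s hu hs, norm_smul, hu, mul_one, Real.norm_of_nonneg
      (hs.le.trans (fge _ _ (un u hu).2))]
  have eh : ∀ (u : E) (s : ℝ), ‖u‖ = 1 → 0 < s → e (h (s • u)) = f (1 / e u) s * e u :=
    fun u s hu hs => by rw [ray u s hu hs, hom _ _ (hs.le.trans (fge _ _ (un u hu).2))]
  have ge : ∀ y, ‖y‖ ≤ ‖h y‖ := fun y => by
    by_cases hy : y = 0
    · simp [hy]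
    · obtain ⟨u, hu, e⟩ := polar y hy
      have := nh u _ hu (norm_pos_iff.2 hy)
      rw [← e] at this
      exact this ▸ fge _ _ (un u hu).2
  have h0 : h 0 = 0 := fix 0 (by norm_num)
  have sur : ∀ z, e z ≤ 1 → ∃ y, ‖y‖ ≤ 1 ∧ h y = z := fun z hz => by
    by_cases hy : z = 0
    · exact ⟨0, by simp, hy ▸ h0⟩
    obtain ⟨u, hu, ez⟩ := polar z hy
    have hz' : ‖z‖ ≤ 1 / e u := by
      rw [le_div_iff₀ (un u hu).1, ← hom _ _ (norm_nonneg z), ← ez]; exact hz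
    have c : Continuous (f (1 / e u)) := by simp only [f]; fun_prop
    obtain ⟨s, hs, es⟩ := intermediate_value_Icc zero_le_one c.continuousOn
      (show ‖z‖ ∈ Icc (f (1 / e u) 0) (f (1 / e u) 1) from
        ⟨by simp only [f]; norm_num, by rwa [f1]⟩)
    have s0 : 0 < s := hs.1.lt_of_ne (by
      rintro rfl
      simp only [f] at es
      norm_num at es
      exact hy (norm_eq_zero.1 es.symm))
    refine ⟨s • u, by rw [norm_smul, hu, mul_one, Real.norm_of_nonneg hs.1]; exact hs.2, ?_⟩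
    rw [ray u s hu s0, es, ← ez]
  have lt1 : ∀ y, ‖y‖ < 1 → e (h y) < 1 := fun y hy1 => by
    by_cases hy : y = 0
    · simp [hy, h0, e0]
    obtain ⟨u, hu, ey⟩ := polar y hy
    have := eh u _ hu (norm_pos_iff.2 hy)
    rw [← ey] at this
    rw [this, ← lt_div_iff₀ (un u hu).1]
    exact (rad_mono (un u hu).2 hy1).trans_eq (f1 _)
  have eq1 : ∀ y, ‖y‖ = 1 → e (h y) = 1 := fun y hy => by
    have := eh y 1 hy one_pos
    rw [one_smul, f1] at this
    rw [this, one_div, inv_mul_cancel₀ (un y hy).1.ne']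
  refine ⟨h, ⟨fun y _ => ContinuousAt.continuousWithinAt ?_, fun x _ y _ exy => ?_⟩, ?_, ?_, fix, ge⟩
  · by_cases hy : y = 0
    · refine continuousAt_id.congr ?_
      rw [hy]
      filter_upwards [closedBall_mem_nhds (0 : E) (by norm_num : (0 : ℝ) < 3 / 4)] with z hz
      exact (fix z (mem_closedBall_zero_iff.1 hz)).symm
    · have h1 := (pos y hy).ne'
      have h2 := norm_ne_zero_iff.2 hy
      simp only [h]
      fun_prop (disch := assumption)
  · by_cases hx : x = 0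
    · exact hx.trans (norm_le_zero_iff.1 (by simpa [← exy, hx, h0] using ge y)).symm
    by_cases hy : y = 0
    · exact (norm_le_zero_iff.1 (by simpa [exy, hy, h0] using ge x)).trans hy.symm
    obtain ⟨u, hu, ex⟩ := polar x hx
    obtain ⟨v, hv, ey⟩ := polar y hy
    have px := norm_pos_iff.2 hx
    have py := norm_pos_iff.2 hy
    have e1 : f (1 / e u) ‖x‖ = f (1 / e v) ‖y‖ := by
      rw [← nh u _ hu px, ← nh v _ hv py, ← ex, ← ey, exy]
    have e2 : f (1 / e u) ‖x‖ • u = f (1 / e v) ‖y‖ • v := by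
      rw [← ray u _ hu px, ← ray v _ hv py, ← ex, ← ey, exy]
    have uv : u = v := by
      rw [← e1] at e2
      exact smul_right_injective E (px.trans_le (fge _ _ (un u hu).2)).ne' e2
    subst uv
    have : ‖x‖ = ‖y‖ := by
      rcases lt_trichotomy ‖x‖ ‖y‖ with l | l | l
      exacts [absurd e1 (rad_mono (un u hu).2 l).ne, l, absurd e1 (rad_mono (un u hu).2 l).ne']
    rw [ex, this, ← ey]
  · ext z
    constructor
    · rintro ⟨y, hy, rfl⟩
      rcases (mem_closedBall_zero_iff.1 hy).lt_or_eq with l | l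
      exacts [(lt1 y l).le, (eq1 y l).le]
    · intro hz
      obtain ⟨y, hy, e⟩ := sur z hz
      exact ⟨y, mem_closedBall_zero_iff.2 hy, e⟩
  · ext z
    constructor
    · rintro ⟨y, hy, rfl⟩
      exact eq1 y (mem_sphere_zero_iff_norm.1 hy)
    · intro hz
      obtain ⟨y, hy, e⟩ := sur z (le_of_eq hz)
      refine ⟨y, mem_sphere_zero_iff_norm.2 (hy.eq_of_not_lt fun l => ?_), e⟩
      exact (lt1 y l).ne (e ▸ hz)

/-- the quadratic function whose sublevel set is the round ball -/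
noncomputable def qd (x : Fin 3 → ℝ) : ℝ := x 0 ^ 2 + x 1 ^ 2 + x 2 ^ 2 - (x 0 + x 1 + x 2) - 39 / 8

theorem sponge_sub {x : Fin 3 → ℝ} (hx : x ∈ sponge) : ‖x - fun _ => 1 / 2‖ ≤ 1 / 2 := by
  obtain ⟨h1, h2, -⟩ := hx
  refine (pi_norm_le_iff_of_nonneg (by norm_num)).2 fun i => ?_
  have a := h1.1
  have b := h1.2.1
  have c := h2.1
  fin_cases i <;> simp only [Pi.sub_apply, Real.norm_eq_abs, abs_le] <;> constructor <;>
    simp at a b c ⊢ <;> linarith [a.1, a.2, b.1, b.2, c.1, c.2]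

theorem cube_round : ∃ h : (Fin 3 → ℝ) → Fin 3 → ℝ,
    Mv sponge h (closedBall (fun _ => 1 / 2) 1) ∧
    h '' closedBall (fun _ => 1 / 2) 1 = {x | qd x ≤ 0} ∧
    h '' sphere (fun _ => 1 / 2) 1 = {x | qd x = 0} := by
  let c : Fin 3 → ℝ := fun _ => 1 / 2
  let e : (Fin 3 → ℝ) → ℝ := fun y => Real.sqrt (8 / 45 * (y 0 ^ 2 + y 1 ^ 2 + y 2 ^ 2))
  obtain ⟨h, hh, hb, hs, fix, ge⟩ := radial (e := e) (by simp only [e]; fun_prop)
    (fun t y ht => by
      simp only [e, Pi.smul_apply, smul_eq_mul]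
      rw [show 8 / 45 * ((t * y 0) ^ 2 + (t * y 1) ^ 2 + (t * y 2) ^ 2) =
        t ^ 2 * (8 / 45 * (y 0 ^ 2 + y 1 ^ 2 + y 2 ^ 2)) by ring, Real.sqrt_mul (sq_nonneg t),
        Real.sqrt_sq ht])
    (fun y hy => Real.sqrt_pos.2 (by
      by_contra hn
      refine hy (funext fun i => ?_)
      have : y 0 = 0 ∧ y 1 = 0 ∧ y 2 = 0 := by
        refine ⟨?_, ?_, ?_⟩ <;> apply pow_eq_zero_iff (two_ne_zero) |>.1 <;>
          nlinarith [sq_nonneg (y 0), sq_nonneg (y 1), sq_nonneg (y 2)]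
      fin_cases i
      exacts [this.1, this.2.1, this.2.2]))
    (fun y => Real.sqrt_le_iff.2 ⟨norm_nonneg y, by
      have k : ∀ i, y i ^ 2 ≤ ‖y‖ ^ 2 := fun i => by
        rw [← sq_abs]; exact pow_le_pow_left₀ (abs_nonneg _) (norm_le_pi_norm y i) 2
      nlinarith [k 0, k 1, k 2, sq_nonneg ‖y‖]⟩)
  have im : ∀ (A A' : Set (Fin 3 → ℝ)), (∀ x, x ∈ A ↔ x - c ∈ A') →
      ∀ x, x ∈ (fun x => c + h (x - c)) '' A ↔ x - c ∈ h '' A' := fun A A' hA x =>
    ⟨by rintro ⟨y, hy, rfl⟩; exact ⟨y - c, (hA y).1 hy, by simp⟩,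
      fun ⟨y, hy, e⟩ => ⟨c + y, (hA _).2 (by simpa using hy), by simp [e]⟩⟩
  have mb : ∀ x, x ∈ closedBall c 1 ↔ x - c ∈ closedBall (0 : Fin 3 → ℝ) 1 := fun x => by
    simp [dist_eq_norm]
  have q : ∀ x : Fin 3 → ℝ, 8 / 45 * ((x - c) 0 ^ 2 + (x - c) 1 ^ 2 + (x - c) 2 ^ 2) =
      1 + 8 / 45 * qd x := fun x => by simp only [qd, c, Pi.sub_apply]; ring
  refine ⟨fun x => c + h (x - c), ⟨⟨?_, fun x hx y hy e => ?_⟩, ⟨ball c (3 / 4), isOpen_ball,
    fun x hx => ?_, fun x hx => ?_⟩, fun x _ hx => ?_⟩, ?_, ?_⟩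
  · exact continuousOn_const.add (hh.1.comp (by fun_prop) fun x hx => (mb x).1 hx)
  · exact sub_left_injective (hh.2 ((mb x).1 hx) ((mb y).1 hy) (add_left_cancel e))
  · exact mem_ball_iff_norm.2 ((sponge_sub hx.1).trans_lt (by norm_num))
  · simp only
    rw [fix _ (mem_ball_iff_norm.1 hx.1).le]; simp
  · have h1 : ‖h (x - c)‖ ≤ 1 / 2 := by simpa [c] using sponge_sub hx
    simp only at hx
    rw [fix (x - c) (by linarith [ge (x - c)])] at hx
    simpa using hx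
  · ext x
    rw [im _ _ mb, hb]
    simp only [mem_setOf_eq, e, Real.sqrt_le_left zero_le_one, q]
    constructor <;> intro <;> linarith
  · ext x
    rw [im _ (sphere 0 1) fun x => by rw [mem_sphere_iff_norm, mem_sphere_zero_iff_norm], hs]
    simp only [mem_setOf_eq, e, Real.sqrt_eq_one, q]
    constructor <;> intro <;> linarith

/-- the inverse stereographic projection as a map to the sphere -/
noncomputable def st (x : Fin 3 → ℝ) : S3 := ⟨stereo x, s3_of (by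
  have : x 0 ^ 2 + x 1 ^ 2 + x 2 ^ 2 + 1 ≠ 0 := by positivity
  simp only [stereo, Complex.div_ofReal_re, Complex.div_ofReal_im]
  simp [-Complex.ofReal_pow]
  field_simp
  ring)⟩

theorem st_co (x : Fin 3 → ℝ) :
    (st x).1.1.re = 2 * x 0 / (x 0 ^ 2 + x 1 ^ 2 + x 2 ^ 2 + 1) ∧
    (st x).1.1.im = 2 * x 1 / (x 0 ^ 2 + x 1 ^ 2 + x 2 ^ 2 + 1) ∧
    (st x).1.2.re = 2 * x 2 / (x 0 ^ 2 + x 1 ^ 2 + x 2 ^ 2 + 1) ∧
    (st x).1.2.im = (x 0 ^ 2 + x 1 ^ 2 + x 2 ^ 2 - 1) / (x 0 ^ 2 + x 1 ^ 2 + x 2 ^ 2 + 1) := by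
  simp only [st, stereo, Complex.div_ofReal_re, Complex.div_ofReal_im]
  simp [-Complex.ofReal_pow]

theorem st_emb : Emb st univ := by
  refine ⟨Continuous.continuousOn (Continuous.subtype_mk ?_ _), fun x _ y _ e => ?_⟩
  · have ne : ∀ x : Fin 3 → ℝ, ((x 0 ^ 2 + x 1 ^ 2 + x 2 ^ 2 + 1 : ℝ) : ℂ) ≠ 0 := fun x =>
      Complex.ofReal_ne_zero.2 (by positivity)
    exact (Continuous.div (by fun_prop) (by fun_prop) ne).prodMk
      (Continuous.div (by fun_prop) (by fun_prop) ne)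
  · obtain ⟨a1, a2, a3, a4⟩ := st_co x
    obtain ⟨b1, b2, b3, b4⟩ := st_co y
    rw [e] at a1 a2 a3 a4
    have hx : x 0 ^ 2 + x 1 ^ 2 + x 2 ^ 2 + 1 ≠ 0 := by positivity
    have hy : y 0 ^ 2 + y 1 ^ 2 + y 2 ^ 2 + 1 ≠ 0 := by positivity
    have n : x 0 ^ 2 + x 1 ^ 2 + x 2 ^ 2 + 1 = y 0 ^ 2 + y 1 ^ 2 + y 2 ^ 2 + 1 := by
      have := a4.symm.trans b4
      rw [div_eq_div_iff hx hy] at this
      linarith
    rw [n] at a1 a2 a3
    have k : ∀ {s t : ℝ}, 2 * s / (y 0 ^ 2 + y 1 ^ 2 + y 2 ^ 2 + 1) =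
        2 * t / (y 0 ^ 2 + y 1 ^ 2 + y 2 ^ 2 + 1) → s = t := fun h => by
      rw [div_left_inj' hy] at h; linarith
    funext i
    fin_cases i
    exacts [k (a1.symm.trans b1), k (a2.symm.trans b2), k (a3.symm.trans b3)]

theorem st_surj (p : S3) (hp : p.1.2.im < 1) : ∃ x, st x = p := by
  have h := s3_eq p
  have ne : 1 - p.1.2.im ≠ 0 := by linarith
  let x : Fin 3 → ℝ := ![p.1.1.re / (1 - p.1.2.im), p.1.1.im / (1 - p.1.2.im),
    p.1.2.re / (1 - p.1.2.im)]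
  have n : x 0 ^ 2 + x 1 ^ 2 + x 2 ^ 2 = 2 / (1 - p.1.2.im) - 1 := by
    simp only [x, Matrix.cons_val]
    field_simp
    linarith
  obtain ⟨a1, a2, a3, a4⟩ := st_co x
  rw [n] at a1 a2 a3 a4
  refine ⟨x, s3_ext (a1.trans ?_) (a2.trans ?_) (a3.trans ?_) (a4.trans ?_)⟩
  · simp only [x, Matrix.cons_val]; field_simp; ring
  · simp only [x, Matrix.cons_val]; field_simp; ring
  · simp only [x, Matrix.cons_val]; field_simp; ring
  · field_simp; ring

theorem round_std : Std (st '' {x | qd x ≤ 0}) (st '' {x | qd x = 0}) := by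
  let x₀ : S3 := ⟨(⟨-8 / 49, -8 / 49⟩, ⟨-8 / 49, 47 / 49⟩), s3_of (by norm_num)⟩
  have key : ∀ x, ∃ u, 0 < u ∧ ip (st x) x₀ - 31 / 49 = qd x * u := fun x => by
    obtain ⟨a1, a2, a3, a4⟩ := st_co x
    refine ⟨16 / 49 / (x 0 ^ 2 + x 1 ^ 2 + x 2 ^ 2 + 1), by positivity, ?_⟩
    rw [ip_eq, a1, a2, a3, a4]
    simp only [x₀, qd]
    field_simp
    ring
  have sur : ∀ p : S3, ip p x₀ ≤ 31 / 49 → ∃ x, st x = p := fun p hp => by
    refine st_surj p ?_
    have h := s3_eq p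
    rw [ip_eq] at hp
    simp only [x₀] at hp
    by_contra hn
    have h1 : p.1.1.re = 0 := by nlinarith [sq_nonneg p.1.1.im, sq_nonneg p.1.2.re]
    have h2 : p.1.1.im = 0 := by nlinarith [sq_nonneg p.1.1.re, sq_nonneg p.1.2.re]
    have h3 : p.1.2.re = 0 := by nlinarith [sq_nonneg p.1.1.im, sq_nonneg p.1.1.re]
    rw [h1, h2, h3] at hp
    linarith
  convert std_cap x₀ (c := 31 / 49) (by rw [abs_lt]; constructor <;> norm_num) using 1 <;> ext p
  · constructor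
    · rintro ⟨x, hx, rfl⟩
      obtain ⟨u, hu, e⟩ := key x
      have := mul_nonpos_of_nonpos_of_nonneg (show qd x ≤ 0 from hx) hu.le
      exact show ip (st x) x₀ ≤ 31 / 49 by linarith
    · intro hp
      obtain ⟨x, rfl⟩ := sur p hp
      obtain ⟨u, hu, e⟩ := key x
      have hp : ip (st x) x₀ ≤ 31 / 49 := hp
      exact ⟨x, nonpos_of_mul_nonpos_left (by linarith) hu, rfl⟩
  · constructor
    · rintro ⟨x, hx, rfl⟩
      obtain ⟨u, hu, e⟩ := key x
      rw [show qd x = 0 from hx] at e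
      exact show ip (st x) x₀ = 31 / 49 by linarith
    · intro hp
      obtain ⟨x, rfl⟩ := sur p (le_of_eq hp)
      obtain ⟨u, hu, e⟩ := key x
      have hp : ip (st x) x₀ = 31 / 49 := hp
      exact ⟨x, (mul_eq_zero.1 (by linarith : qd x * u = 0)).resolve_right hu.ne', rfl⟩

end Pool.Agent.Lib.MP_b7d179_gt.F
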