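import Pool.Agent.Lib.MP_b7d179_gt.Stmt2
import Pool.Agent.Lib.MP_b7d179_gt.F.Cap

/-! Isometries of the form act on the closed ball; orbits of inner points have the same limits. -/

namespace Pool.Agent.Lib.MP_b7d179_gt.F

open Set Stmt L Matrix

abbrev M3 : Type := Matrix (Fin 3) (Fin 3) ℂ

/-- the lift of a point of the ball -/
def vc (p : ℂ × ℂ) : Fin 3 → ℂ := ![p.1, p.2, 1]

/-- square of the norm -/
noncomputable def nq (p : ℂ × ℂ) : ℝ := ‖p.1‖ ^ 2 + ‖p.2‖ ^ 2

theorem form_self (z : Fin 3 → ℂ) : form z z = ((‖z 0‖ ^ 2 + ‖z 1‖ ^ 2 - ‖z 2‖ ^ 2 : ℝ) : ℂ) := by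
  simp only [form, Complex.mul_conj, Complex.normSq_eq_norm_sq]; push_cast; ring

theorem form_smul (a b : ℂ) (z w : Fin 3 → ℂ) :
    form (a • z) (b • w) = a * starRingEnd ℂ b * form z w := by
  simp only [form, Pi.smul_apply, smul_eq_mul, map_mul]; ring

theorem form_vc (p : ℂ × ℂ) : form (vc p) (vc p) = ((nq p - 1 : ℝ) : ℂ) := by
  rw [form_self]; simp [vc, nq]

variable {u v : GL (Fin 3) ℂ} {p q : ℂ × ℂ}

theorem uni_one : Uni 1 := fun z w => by simp

theorem uni_mul (hu : Uni u) (hv : Uni v) : Uni (u * v) := fun z w => by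
  rw [Units.val_mul, ← mulVec_mulVec, ← mulVec_mulVec, hu, hv]

theorem gl_cancel (u : GL (Fin 3) ℂ) (z : Fin 3 → ℂ) :
    (u : M3).mulVec (((u⁻¹ : GL (Fin 3) ℂ) : M3).mulVec z) = z := by
  rw [mulVec_mulVec, Units.mul_inv, one_mulVec]

theorem gl_cancel' (u : GL (Fin 3) ℂ) (z : Fin 3 → ℂ) :
    ((u⁻¹ : GL (Fin 3) ℂ) : M3).mulVec ((u : M3).mulVec z) = z := by
  rw [mulVec_mulVec, Units.inv_mul, one_mulVec]

theorem uni_inv (hu : Uni u) : Uni u⁻¹ := fun z w => by
  rw [← hu, gl_cancel, gl_cancel]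

theorem den_ne (hu : Uni u) (hp : nq p ≤ 1) : (u : M3).mulVec (vc p) 2 ≠ 0 := fun h => by
  have e := hu (vc p) (vc p)
  rw [form_vc, form_self, h, Complex.ofReal_inj] at e
  have z : (u : M3).mulVec (vc p) = 0 := by
    have a := sq_nonneg ‖(u : M3).mulVec (vc p) 0‖
    have b := sq_nonneg ‖(u : M3).mulVec (vc p) 1‖
    rw [norm_zero] at e
    have a' : ‖(u : M3).mulVec (vc p) 0‖ ^ 2 = 0 := by linarith
    have b' : ‖(u : M3).mulVec (vc p) 1‖ ^ 2 = 0 := by linarith
    funext i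
    fin_cases i
    exacts [norm_eq_zero.1 (pow_eq_zero_iff two_ne_zero |>.1 a'),
      norm_eq_zero.1 (pow_eq_zero_iff two_ne_zero |>.1 b'), h]
  have := congrFun (gl_cancel' u (vc p)) 2
  rw [z, mulVec_zero] at this
  simp [vc] at this

theorem act_vc (hu : Uni u) (hp : nq p ≤ 1) :
    (u : M3).mulVec (vc p) = (u : M3).mulVec (vc p) 2 • vc (act u p) := by
  have := den_ne hu hp
  funext i
  fin_cases i
  · exact (mul_div_cancel₀ _ this).symm
  · exact (mul_div_cancel₀ _ this).symm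
  · exact (mul_one _).symm

theorem act_of {d : ℂ} (hd : d ≠ 0) (h : (u : M3).mulVec (vc p) = d • vc q) : act u p = q := by
  change ((u : M3).mulVec (vc p) 0 / (u : M3).mulVec (vc p) 2,
    (u : M3).mulVec (vc p) 1 / (u : M3).mulVec (vc p) 2) = q
  rw [h]
  refine Prod.ext ?_ ?_ <;> simp [vc, hd]

theorem form_act (hu : Uni u) (hp : nq p ≤ 1) (hq : nq q ≤ 1) :
    ‖(u : M3).mulVec (vc p) 2‖ * ‖(u : M3).mulVec (vc q) 2‖ *
      ‖form (vc (act u p)) (vc (act u q))‖ = ‖form (vc p) (vc q)‖ := by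
  rw [← hu (vc p) (vc q)]
  conv_rhs => rw [act_vc hu hp, act_vc hu hq, form_smul, norm_mul, norm_mul, Complex.norm_conj]

theorem nq_act (hu : Uni u) (hp : nq p ≤ 1) :
    ‖(u : M3).mulVec (vc p) 2‖ ^ 2 * (1 - nq (act u p)) = 1 - nq p := by
  have e := hu (vc p) (vc p)
  rw [act_vc hu hp, form_smul, form_vc, form_vc, Complex.mul_conj, ← Complex.ofReal_mul,
    Complex.ofReal_inj, Complex.normSq_eq_norm_sq] at e
  linarith

theorem act_le (hu : Uni u) (hp : nq p ≤ 1) : nq (act u p) ≤ 1 := by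
  have h := nq_act hu hp
  have := sq_pos_of_pos (norm_pos_iff.2 (den_ne hu hp))
  nlinarith

theorem act_lt (hu : Uni u) (hp : nq p < 1) : nq (act u p) < 1 := by
  have h := nq_act hu hp.le
  have := sq_pos_of_pos (norm_pos_iff.2 (den_ne hu hp.le))
  nlinarith

theorem act_eq (hu : Uni u) (hp : nq p = 1) : nq (act u p) = 1 := by
  have h := nq_act hu hp.le
  have := sq_pos_of_pos (norm_pos_iff.2 (den_ne hu hp.le))
  rw [hp, sub_self, mul_eq_zero] at h
  linarith [h.resolve_left this.ne']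

theorem act_mul (hu : Uni u) (hv : Uni v) (hp : nq p ≤ 1) : act (u * v) p = act u (act v p) := by
  refine act_of (mul_ne_zero (den_ne hv hp) (den_ne hu (act_le hv hp))) ?_
  rw [Units.val_mul, ← mulVec_mulVec, mul_smul, ← act_vc hu (act_le hv hp), ← mulVec_smul,
    ← act_vc hv hp]

theorem act_one (p : ℂ × ℂ) : act 1 p = p := act_of one_ne_zero (by simp)

theorem act_cont (hu : Uni u) : ContinuousOn (act u) {p | nq p ≤ 1} := by
  have c : ∀ i, Continuous fun p : ℂ × ℂ => (u : M3).mulVec (vc p) i := fun i => by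
    simp only [mulVec, dotProduct, Fin.sum_univ_three, vc, cons_val]
    fun_prop
  exact ((c 0).continuousOn.div (c 2).continuousOn fun p hp => den_ne hu hp).prodMk
    ((c 1).continuousOn.div (c 2).continuousOn fun p hp => den_ne hu hp)

theorem refl_form (c z w : Fin 3 → ℂ) (hc : form c c ≠ 0) :
    form (reflIn c z) (reflIn c w) = form z w := by
  have h1 : om * starRingEnd ℂ om = 1 := by
    have : om = Complex.exp ((2 * Real.pi / 3 : ℝ) * Complex.I) := by
      rw [om]; congr 1; push_cast; ring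
    rw [Complex.mul_conj, Complex.normSq_eq_norm_sq, this, Complex.norm_exp_ofReal_mul_I]; simp
  have h2 : starRingEnd ℂ (form c c) = form c c := by rw [form_self, Complex.conj_ofReal]
  have h3 : starRingEnd ℂ (form w c) = form c w := by simp [form]; ring
  have e : ∀ a b : ℂ, form (z + a • c) (w + b • c) =
      form z w + starRingEnd ℂ b * form z c + a * form c w + a * starRingEnd ℂ b * form c c := by
    intro a b
    simp only [form, Pi.add_apply, Pi.smul_apply, smul_eq_mul, map_add, map_mul]; ring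
  rw [reflIn, reflIn, e, map_div₀, map_mul, map_sub, map_one, h2, h3]
  field_simp
  linear_combination (form z c * form c w) * h1

theorem pol_ne (i : Fin 6) : form (pol i) (pol i) ≠ 0 := by
  rw [form_self, Complex.ofReal_ne_zero]
  simp only [pol, cons_val, Complex.norm_real, Real.norm_eq_abs, sq_abs, Real.cos_sq_add_sin_sq,
    div_pow, Real.sq_sqrt (show (0 : ℝ) ≤ 2 by norm_num)]
  norm_num

theorem gam_uni {g : GL (Fin 3) ℂ} (hg : g ∈ Gam) : Uni g := by
  induction hg using Subgroup.closure_induction with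
  | mem g h =>
    obtain ⟨i, h⟩ := h
    exact fun z w => by rw [h, h]; exact refl_form _ _ _ (pol_ne i)
  | one => exact uni_one
  | mul _ _ _ _ a b => exact uni_mul a b
  | inv _ _ a => exact uni_inv a

theorem gamU_iff (hu : Uni u) {g : GL (Fin 3) ℂ} : g ∈ GamU u ↔ u⁻¹ * g * u ∈ Gam := by
  have key : ∀ i z, (u : M3).mulVec (refl i z) =
      reflIn ((u : M3).mulVec (pol i)) ((u : M3).mulVec z) := fun i z => by
    unfold Stmt.refl reflIn
    rw [hu, hu, mulVec_add, mulVec_smul]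
  have : GamU u = Gam.map (MulAut.conj u).toMonoidHom := by
    rw [Gam, MonoidHom.map_closure, GamU]
    congr 1
    ext g
    constructor
    · rintro ⟨i, h⟩
      refine ⟨u⁻¹ * g * u, ⟨i, fun z => ?_⟩, by simp [mul_assoc]⟩
      rw [Units.val_mul, Units.val_mul, ← mulVec_mulVec, ← mulVec_mulVec, h, ← key, gl_cancel']
    · rintro ⟨g, ⟨i, h⟩, rfl⟩
      refine ⟨i, fun z => ?_⟩
      change ((u * g * u⁻¹ : GL (Fin 3) ℂ) : M3).mulVec z = _
      rw [Units.val_mul, Units.val_mul, ← mulVec_mulVec, ← mulVec_mulVec, h, key, gl_cancel]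
  rw [this, Subgroup.mem_map_equiv]
  rfl

theorem dist_le_form (hp : nq p ≤ 1) (hq : nq q ≤ 1) :
    dist p q ^ 2 ≤ 2 * ‖form (vc p) (vc q)‖ := by
  have h1 : dist p q ^ 2 ≤ ‖p.1 - q.1‖ ^ 2 + ‖p.2 - q.2‖ ^ 2 := by
    rw [Prod.dist_eq, dist_eq_norm, dist_eq_norm]
    rcases max_choice ‖p.1 - q.1‖ ‖p.2 - q.2‖ with h | h <;> rw [h] <;> simp
  have h2 := (neg_le_abs _).trans (Complex.abs_re_le_norm (form (vc p) (vc q)))
  simp only [nq, Complex.sq_norm, Complex.normSq_apply] at hp hq h1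
  simp [form, vc] at h1 h2 ⊢
  nlinarith

/-- the limit points on the sphere do not depend on the base point -/
theorem base_free {A : Set (GL (Fin 3) ℂ)} (hA : ∀ g ∈ A, Uni g) {o o' x : ℂ × ℂ} (ho : nq o < 1)
    (ho' : nq o' < 1) (hx : nq x = 1) (h : x ∈ closure {q | ∃ g ∈ A, q = act g o}) :
    x ∈ closure {q | ∃ g ∈ A, q = act g o'} := by
  obtain ⟨a, ha, la⟩ := mem_closure_iff_seq_limit.1 h
  choose g hg ea using ha
  obtain ⟨κ, hκ⟩ : ∃ κ, κ = ‖form (vc o) (vc o')‖ ^ 2 / ((1 - nq o) * (1 - nq o')) := ⟨_, rfl⟩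
  have p1 := sub_pos.2 ho
  have p2 := sub_pos.2 ho'
  have κ0 : 0 ≤ κ := by rw [hκ]; positivity
  have est : ∀ n, dist (a n) (act (g n) o') ^ 4 ≤ 4 * κ * (1 - nq (a n)) := fun n => by
    have U := hA _ (hg n)
    have e1 := nq_act U ho.le
    have e2 := nq_act U ho'.le
    have e3 := form_act U ho.le ho'.le
    have e4 := dist_le_form (act_le U ho.le) (act_le U ho'.le)
    have l1 := sub_pos.2 (act_lt U ho)
    have l2 := sub_pos.2 (act_lt U ho')
    have d1 := norm_pos_iff.2 (den_ne U ho.le)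
    have d2 := norm_pos_iff.2 (den_ne U ho'.le)
    have n2 : 0 ≤ nq (act (g n) o') := by rw [nq]; positivity
    have e5 : ‖form (vc (act (g n) o)) (vc (act (g n) o'))‖ ^ 2 =
        κ * (1 - nq (act (g n) o)) * (1 - nq (act (g n) o')) := by
      rw [hκ, ← e3, ← e1, ← e2]
      field_simp
    rw [ea n]
    calc _ = (dist (act (g n) o) (act (g n) o') ^ 2) ^ 2 := by ring
      _ ≤ (2 * ‖form (vc (act (g n) o)) (vc (act (g n) o'))‖) ^ 2 := by gcongr
      _ ≤ _ := by rw [mul_pow, e5]; nlinarith [mul_nonneg (mul_nonneg κ0 l1.le) n2]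
  have c : Continuous fun p : ℂ × ℂ => 4 * κ * (1 - nq p) := by unfold nq; fun_prop
  have l0 := (c.tendsto x).comp la
  rw [hx, sub_self, mul_zero] at l0
  have l1 : Filter.Tendsto (fun n => dist (a n) (act (g n) o') ^ 4) Filter.atTop (nhds 0) :=
    squeeze_zero (fun n => by positivity) est l0
  have l2 : Filter.Tendsto (fun n => dist (a n) (act (g n) o')) Filter.atTop (nhds 0) := by
    have := ((Real.continuous_sqrt.comp Real.continuous_sqrt).tendsto 0).comp l1
    simp only [Function.comp_def, Real.sqrt_zero] at this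
    refine this.congr fun n => ?_
    rw [show dist (a n) (act (g n) o') ^ 4 = (dist (a n) (act (g n) o') ^ 2) ^ 2 by ring,
      Real.sqrt_sq (sq_nonneg _), Real.sqrt_sq dist_nonneg]
  exact mem_closure_iff_seq_limit.2 ⟨fun n => act (g n) o', fun n => ⟨g n, hg n, rfl⟩,
    la.congr_dist l2⟩

/-- the action on the sphere -/
noncomputable def actS (u : GL (Fin 3) ℂ) (hu : Uni u) (p : S3) : S3 :=
  ⟨act u p.1, act_eq hu p.2⟩

theorem act_closure (hu : Uni u) {A B : Set (ℂ × ℂ)} (hA : ∀ q ∈ A, nq q ≤ 1)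
    (h : ∀ q ∈ A, act u q ∈ B) (hp : p ∈ closure A) : act u p ∈ closure B := by
  have c : IsClosed {p : ℂ × ℂ | nq p ≤ 1} := isClosed_le (by unfold nq; fun_prop) continuous_const
  exact closure_mono (image_subset_iff.2 h)
    (((act_cont hu p (c.closure_subset_iff.2 hA hp)).mono hA).mem_closure_image hp)

theorem limU_eq (hu : Uni u) {o : ℂ × ℂ} (ho : nq o < 1) : limU u o = actS u hu '' limitSet := by
  have z : nq ((0, 0) : ℂ × ℂ) < 1 := by simp [nq]
  have hi := uni_inv hu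
  have hG : ∀ g ∈ GamU u, Uni g := fun g hg => by
    have := uni_mul (uni_mul hu (gam_uni ((gamU_iff hu).1 hg))) hi
    rwa [show u * (u⁻¹ * g * u) * u⁻¹ = g by group] at this
  ext x
  constructor
  · intro hx
    refine ⟨actS u⁻¹ hi x, ?_, Subtype.ext ?_⟩
    · refine act_closure hi ?_ ?_ (base_free (A := GamU u) hG ho (act_lt hu z) x.2 hx)
      · rintro _ ⟨g, hg, rfl⟩
        exact act_le (hG g hg) (act_le hu z.le)
      · rintro _ ⟨g, hg, rfl⟩
        exact ⟨_, (gamU_iff hu).1 hg, by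
          rw [act_mul (uni_mul hi (hG g hg)) hu z.le, act_mul hi (hG g hg) (act_le hu z.le)]⟩
    · change act u (act u⁻¹ x.1) = x.1
      rw [← act_mul hu hi (le_of_eq x.2), mul_inv_cancel, act_one]
  · rintro ⟨y, hy, rfl⟩
    refine base_free (A := GamU u) hG (act_lt hu z) ho (act_eq hu y.2) (act_closure hu ?_ ?_ hy)
    · rintro _ ⟨g, hg, rfl⟩
      exact act_le (gam_uni hg) z.le
    · rintro _ ⟨g, hg, rfl⟩
      have U := gam_uni hg
      refine ⟨u * g * u⁻¹, (gamU_iff hu).2 (by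
        rwa [show u⁻¹ * (u * g * u⁻¹) * u = g by group]), ?_⟩
      rw [← act_mul (uni_mul (uni_mul hu U) hi) hu z.le, inv_mul_cancel_right, act_mul hu U z.le]

end Pool.Agent.Lib.MP_b7d179_gt.F
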